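import Pool.Agent.K3h89.SZ.Stm
import Pool.Agent.H338R2.BH_SingTail

/-!
# Integer polynomials as sieve systems; common prime factors of `F(x)` and `F(x + h)` (helper497)
-/

set_option autoImplicit false

namespace Pool.Agent.U497.SP

open Finset Polynomial

open Pool.Agent.Y677.RSZ (rt V)
open Pool.Agent.K3h89.SZ (SysP CF)
open Pool.Agent.H300R2.BH (rho)
open Pool.Agent.H338R2.BH (rho_le_deg)

/-- the function of a polynomial -/
def fn (F : ℤ[X]) (x : ℤ) : ℤ := F.eval x

lemma rt_fn (F : ℤ[X]) (p : ℕ) : rt (fn F) p = rho F p := rfl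

lemma dvd_shift (F : ℤ[X]) (p : ℕ) (x y : ℤ) (h : (p : ℤ) ∣ x - y) : (p : ℤ) ∣ F.eval x ↔ (p : ℤ) ∣ F.eval y := by
  have h1 : (p : ℤ) ∣ F.eval x - F.eval y := h.trans (Polynomial.sub_dvd_eval_sub x y F)
  constructor
  · intro h2
    have := dvd_sub h2 h1
    rwa [sub_sub_cancel] at this
  · intro h2
    have := dvd_add h1 h2
    rwa [sub_add_cancel] at this

lemma sysP {g : ℕ} {F : ℤ[X]} (hF : F.natDegree ≤ g) (h : ∀ p : ℕ, p.Prime → rho F p ≠ p) : SysP g (fn F) where
  per := fun p _ n => dvd_shift F p _ _ ⟨1, by ring⟩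
  root := by
    intro p hp
    rw [rt_fn]
    refine ⟨rho_le_deg F p g hp hF (h p hp), lt_of_le_of_ne ?_ (h p hp)⟩
    unfold rho
    exact (card_filter_le _ _).trans (by rw [card_range])

/-- the classes of the constant term for which `F(x)`, `F(x + h)` have the common prime factor `p` -/
noncomputable def Rc (G : ℤ[X]) (h p : ℕ) : Finset ℕ := by
  classical exact (range p).filter (fun r : ℕ => ∃ x : ℤ, (p : ℤ) ∣ (r : ℤ) + G.eval x ∧ (p : ℤ) ∣ (r : ℤ) + G.eval (x + h))

lemma mod_mem_Rc {G : ℤ[X]} {a h p : ℕ} (hp : p.Prime) (H : CF (fn (C (a : ℤ) + G)) h p) : a % p ∈ Rc G h p := by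
  classical
  obtain ⟨x, h1, h2⟩ := H
  unfold fn at h1 h2
  rw [eval_add, eval_C] at h1 h2
  unfold Rc
  rw [mem_filter, mem_range]
  refine ⟨Nat.mod_lt _ hp.pos, x, ?_, ?_⟩
  · have h3 : (p : ℤ) ∣ (a : ℤ) - ((a % p : ℕ) : ℤ) := by
      push_cast
      exact Int.dvd_self_sub_emod
    have h4 := dvd_sub h1 h3
    rwa [show (a : ℤ) + G.eval x - ((a : ℤ) - ((a % p : ℕ) : ℤ)) = ((a % p : ℕ) : ℤ) + G.eval x by ring] at h4
  · have h3 : (p : ℤ) ∣ (a : ℤ) - ((a % p : ℕ) : ℤ) := by
      push_cast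
      exact Int.dvd_self_sub_emod
    have h4 := dvd_sub h2 h3
    rwa [show (a : ℤ) + G.eval (x + h) - ((a : ℤ) - ((a % p : ℕ) : ℤ)) = ((a % p : ℕ) : ℤ) + G.eval (x + h) by ring] at h4

lemma card_Rc {G : ℤ[X]} {j h p : ℕ} (hp : p.Prime) (hj : 1 ≤ j) (hG : G.natDegree ≤ j) (hjp : j < p)
    (hh : ¬ p ∣ h) (hc : ¬ (p : ℤ) ∣ G.coeff j) : (Rc G h p).card ≤ j := by
  classical
  haveI : Fact p.Prime := ⟨hp⟩
  set Gp : (ZMod p)[X] := G.map (Int.castRingHom (ZMod p)) with hGp
  have hev : ∀ x : ℤ, Gp.eval (x : ZMod p) = ((G.eval x : ℤ) : ZMod p) := by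
    intro x
    have := Polynomial.eval_intCast_map (Int.castRingHom (ZMod p)) G x
    simpa [hGp] using this
  have hdeg : Gp.natDegree ≤ j := natDegree_map_le.trans hG
  set D : (ZMod p)[X] := Gp.comp (X + C (h : ZMod p)) - Gp with hD
  have hDdeg : D.natDegree ≤ j := by
    refine (natDegree_sub_le _ _).trans (max_le ?_ hdeg)
    refine natDegree_comp_le.trans ?_
    rw [natDegree_X_add_C, mul_one]
    exact hdeg
  have hcoef : Gp.coeff j ≠ 0 := by
    rw [hGp, coeff_map]
    intro h0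
    apply hc
    rw [← ZMod.intCast_zmod_eq_zero_iff_dvd]
    simpa using h0
  have hh0 : (h : ZMod p) ≠ 0 := fun h0 => hh ((ZMod.natCast_eq_zero_iff _ _).1 h0)
  have hD0 : D ≠ 0 := by
    intro h0
    have h1 : ∀ y : ZMod p, Gp.eval (y + h) = Gp.eval y := by
      intro y
      have h2 : D.eval y = 0 := by rw [h0, eval_zero]
      rw [hD, eval_sub, eval_comp, eval_add, eval_X, eval_C] at h2
      exact sub_eq_zero.1 h2
    have h2 : ∀ n : ℕ, Gp.eval ((n : ZMod p) * h) = Gp.eval 0 := by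
      intro n
      induction n with
      | zero => simp
      | succ n ih =>
        have h3 := h1 ((n : ZMod p) * h)
        rw [ih] at h3
        rw [← h3]
        congr 1
        push_cast
        ring
    have h3 : ∀ y : ZMod p, Gp.eval y = Gp.eval 0 := by
      intro y
      have h4 := h2 (y / (h : ZMod p)).val
      rw [ZMod.natCast_zmod_val, div_mul_cancel₀ _ hh0] at h4
      exact h4
    have h4 : Gp - C (Gp.eval 0) = 0 := by
      apply Polynomial.eq_zero_of_natDegree_lt_card_of_eval_eq_zero (Gp - C (Gp.eval 0)) (f := (id : ZMod p → ZMod p))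
        Function.injective_id
      · intro y
        rw [id, eval_sub, eval_C, h3 y, sub_self]
      · rw [ZMod.card]
        refine lt_of_le_of_lt ?_ hjp
        refine (natDegree_sub_le _ _).trans (max_le hdeg ?_)
        rw [natDegree_C]
        exact Nat.zero_le _
    apply hcoef
    rw [sub_eq_zero.1 h4, coeff_C, if_neg (by omega)]
  have hsub : Rc G h p ⊆ D.roots.toFinset.image (fun x : ZMod p => (-(Gp.eval x)).val) := by
    intro r hr
    unfold Rc at hr
    rw [mem_filter, mem_range] at hr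
    obtain ⟨hrp, x, h1, h2⟩ := hr
    rw [← ZMod.intCast_zmod_eq_zero_iff_dvd] at h1 h2
    push_cast at h1 h2
    rw [← hev] at h1 h2
    rw [mem_image]
    refine ⟨(x : ZMod p), ?_, ?_⟩
    · rw [Multiset.mem_toFinset, mem_roots hD0, IsRoot.def, hD, eval_sub, eval_comp, eval_add, eval_X, eval_C]
      push_cast at h2
      have h3 : Gp.eval ((x : ZMod p) + h) = -(r : ZMod p) := by linear_combination h2
      have h4 : Gp.eval (x : ZMod p) = -(r : ZMod p) := by linear_combination h1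
      rw [h3, h4, sub_self]
    · have h4 : -(Gp.eval (x : ZMod p)) = (r : ZMod p) := by linear_combination -h1
      rw [h4, ZMod.val_cast_of_lt hrp]
  calc (Rc G h p).card ≤ _ := card_le_card hsub
    _ ≤ D.roots.toFinset.card := card_image_le
    _ ≤ Multiset.card D.roots := Multiset.toFinset_card_le _
    _ ≤ D.natDegree := card_roots' D
    _ ≤ j := hDdeg

/-- the number of the roots as a function of the constant term: periodic -/
lemma rho_per (G : ℤ[X]) (p a : ℕ) : rho (C ((p + a : ℕ) : ℤ) + G) p = rho (C (a : ℤ) + G) p := by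
  unfold rho
  congr 1
  apply filter_congr
  intro x _
  rw [eval_add, eval_add, eval_C, eval_C]
  push_cast
  rw [add_assoc]
  exact (Int.dvd_add_right (dvd_refl _))

lemma rho_sum (G : ℤ[X]) (p : ℕ) (hp : p.Prime) : ∑ a ∈ range p, rho (C (a : ℤ) + G) p = p := by
  classical
  have h1 : ∀ a ∈ range p, rho (C (a : ℤ) + G) p = ∑ x ∈ range p, if (p : ℤ) ∣ (a : ℤ) + G.eval (x : ℤ) then 1 else 0 := by
    intro a _
    unfold rho
    rw [card_filter]
    refine sum_congr rfl fun x _ => ?_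
    rw [eval_add, eval_C]
  rw [sum_congr rfl h1, sum_comm]
  have h2 : ∀ x ∈ range p, ∑ a ∈ range p, (if (p : ℤ) ∣ (a : ℤ) + G.eval (x : ℤ) then 1 else 0) = 1 := by
    intro x _
    have hpz : (p : ℤ) ≠ 0 := by exact_mod_cast hp.ne_zero
    have hpp : (0 : ℤ) < p := by exact_mod_cast hp.pos
    rw [← card_filter, card_eq_one]
    have hm1 : 0 ≤ (-(G.eval (x : ℤ))) % (p : ℤ) := Int.emod_nonneg _ hpz
    have hm2 : (-(G.eval (x : ℤ))) % (p : ℤ) < p := Int.emod_lt_of_pos _ hpp
    refine ⟨((-(G.eval (x : ℤ))) % (p : ℤ)).toNat, ?_⟩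
    ext a
    rw [mem_filter, mem_range, mem_singleton]
    have hcast : (((-(G.eval (x : ℤ))) % (p : ℤ)).toNat : ℤ) = (-(G.eval (x : ℤ))) % (p : ℤ) := Int.toNat_of_nonneg hm1
    have hd : (p : ℤ) ∣ (-(G.eval (x : ℤ))) - (-(G.eval (x : ℤ))) % (p : ℤ) := Int.dvd_self_sub_emod
    constructor
    · rintro ⟨h3, h4⟩
      have h5 : (p : ℤ) ∣ (a : ℤ) - (-(G.eval (x : ℤ))) % (p : ℤ) := by
        have h6 := dvd_add h4 hd
        rwa [show (a : ℤ) + G.eval (x : ℤ) + (-(G.eval (x : ℤ)) - -(G.eval (x : ℤ)) % (p : ℤ)) =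
          (a : ℤ) - -(G.eval (x : ℤ)) % (p : ℤ) by ring] at h6
      have h3' : (a : ℤ) < p := by exact_mod_cast h3
      have h7 : (a : ℤ) - (-(G.eval (x : ℤ))) % (p : ℤ) = 0 := by
        apply Int.eq_zero_of_abs_lt_dvd h5
        rw [abs_lt]
        constructor <;> linarith [(Int.natCast_nonneg a)]
      have h8 : (a : ℤ) = (((-(G.eval (x : ℤ))) % (p : ℤ)).toNat : ℤ) := by
        rw [hcast]; linarith
      exact_mod_cast h8
    · intro h3
      have h4 : (a : ℤ) = (-(G.eval (x : ℤ))) % (p : ℤ) := by rw [h3, hcast]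
      refine ⟨by have : (a : ℤ) < p := by (rw [h4]; exact hm2)
                 exact_mod_cast this, ?_⟩
      rw [h4]
      have h6 := dvd_neg.2 hd
      rwa [show -(-(G.eval (x : ℤ)) - -(G.eval (x : ℤ)) % (p : ℤ)) = -(G.eval (x : ℤ)) % (p : ℤ) + G.eval (x : ℤ) by ring] at h6
  rw [sum_congr rfl h2, sum_const, card_range, smul_eq_mul, mul_one]

/-- the roots are at most `j` if the leading coefficient is prime to `p` -/
lemma rho_le {G : ℤ[X]} {j p : ℕ} (hp : p.Prime) (hj : 1 ≤ j) (hG : G.natDegree ≤ j) (hjp : j < p)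
    (hc : ¬ (p : ℤ) ∣ G.coeff j) (a : ℕ) : rho (C (a : ℤ) + G) p ≤ j := by
  classical
  haveI : Fact p.Prime := ⟨hp⟩
  have hd : (C (a : ℤ) + G).natDegree ≤ j :=
    (natDegree_add_le _ _).trans (max_le (by rw [natDegree_C]; exact Nat.zero_le _) hG)
  apply rho_le_deg _ p j hp hd
  intro h0
  -- all residues are roots
  set Gp : (ZMod p)[X] := (C (a : ℤ) + G).map (Int.castRingHom (ZMod p)) with hGp
  have hev : ∀ x : ℤ, Gp.eval (x : ZMod p) = (((C (a : ℤ) + G).eval x : ℤ) : ZMod p) := by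
    intro x
    have := Polynomial.eval_intCast_map (Int.castRingHom (ZMod p)) (C (a : ℤ) + G) x
    simpa [hGp] using this
  have hall : ∀ x ∈ range p, (p : ℤ) ∣ (C (a : ℤ) + G).eval (x : ℤ) := by
    unfold rho at h0
    have h1 : (range p).filter (fun k : ℕ => (p : ℤ) ∣ (C (a : ℤ) + G).eval (k : ℤ)) = range p := by
      apply eq_of_subset_of_card_le (filter_subset _ _)
      rw [h0, card_range]
    intro x hx
    rw [← h1, mem_filter] at hx
    exact hx.2
  have hz : Gp = 0 := by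
    apply Polynomial.eq_zero_of_natDegree_lt_card_of_eval_eq_zero Gp (f := (id : ZMod p → ZMod p)) Function.injective_id
    · intro y
      have h1 := hall y.val (mem_range.2 (ZMod.val_lt y))
      have h2 := hev (y.val : ℤ)
      rw [(ZMod.intCast_zmod_eq_zero_iff_dvd _ p).2 h1] at h2
      rw [Int.cast_natCast, ZMod.natCast_zmod_val] at h2
      exact h2
    · rw [ZMod.card]
      exact lt_of_le_of_lt (natDegree_map_le.trans hd) hjp
  apply hc
  rw [← ZMod.intCast_zmod_eq_zero_iff_dvd]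
  have h1 : Gp.coeff j = 0 := by rw [hz, coeff_zero]
  rw [hGp, coeff_map, coeff_add, coeff_C, if_neg (by omega), zero_add] at h1
  simpa using h1

end Pool.Agent.U497.SP
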