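import Pool.Agent.K3h89.SZ.Top

/-!
# Szemerédi's theorem relative to the sifted set of one function (helper497)
-/

set_option autoImplicit false

namespace Pool.Agent.U497.SP

open Finset Filter Topology

open Pool.Agent.Y677.RSZ (rt V)
open Pool.Agent.K3h89.SZ (SysP CF strip)

/-- `x` is a term of a `k`-term progression in `T` with difference at most `D` -/
def InP (T : Finset ℕ) (k : ℕ) (D : ℝ) (x : ℕ) : Prop :=
  ∃ a d : ℕ, 1 ≤ d ∧ (d : ℝ) ≤ D ∧ (∀ i < k, a + i * d ∈ T) ∧ ∃ i < k, x = a + i * d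

open Classical in
/-- the large common prime factors -/
def Lar (F : ℤ → ℤ) (H B p : ℕ) : Prop :=
  Real.exp (√(Real.log H)) ≤ p ∧ ∃ h : ℕ, 1 ≤ h ∧ (h : ℝ) ≤ Real.log H ^ B ∧ CF F h p

open Classical in
theorem one (k g : ℕ) (κ : ℝ) (hk : 2 ≤ k) (hκ : 0 < κ) : ∃ η : ℝ, 0 < η ∧ ∃ B H₀ : ℕ,
    ∀ (F : ℤ → ℤ) (Y H : ℕ) (Z : Finset ℕ), SysP g F → H₀ ≤ H →
    (∀ n ∈ Ioc Y (Y + H), F (n : ℤ) ≠ 0 ∧ |F (n : ℤ)| ≤ (H : ℤ) ^ g) →
    (∀ h : ℕ, 1 ≤ h → (h : ℝ) ≤ Real.log H ^ B →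
      ∑ p ∈ (Icc 1 H).filter (fun p : ℕ => p.Prime ∧ Real.log (Real.log H) < p ∧
        (p : ℝ) < Real.exp (√(Real.log H)) ∧ CF F h p), (1 : ℝ) / p ≤ η) →
    (∑ p ∈ (Icc 1 H).filter (fun p : ℕ => p.Prime ∧ Lar F H B p), (1 : ℝ) / p ≤ 1 / (4 * (g + 1))) →
    Z ⊆ Ioc Y (Y + H) →
    (∀ n ∈ Z, ∀ p : ℕ, p.Prime → (p : ℝ) ≤ (H : ℝ) ^ (1 / 2 : ℝ) → ¬ (p : ℤ) ∣ F (n : ℤ)) →
    κ * (H * V F 1 H) ≤ Z.card →
    ∃ a d : ℕ, 1 ≤ d ∧ (d : ℝ) ≤ Real.log H ^ B ∧ ∀ i < k, a + i * d ∈ Z := by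
  obtain ⟨η, hη, B, H₁, heng⟩ := Pool.Agent.K3h89.SZ.engP_all k g (1 / 2) (κ / 2) hk (by norm_num) (by positivity)
  have t1 : Tendsto (fun H : ℕ => Real.exp (√(Real.log (H : ℝ)))) atTop atTop :=
    Real.tendsto_exp_atTop.comp (Real.tendsto_sqrt_atTop.comp
      (Real.tendsto_log_atTop.comp tendsto_natCast_atTop_atTop))
  obtain ⟨H₂, hH₂⟩ := eventually_atTop.1 (t1.eventually_ge_atTop (2 * ((g : ℝ) + 1)))
  refine ⟨η, hη, B, max H₁ H₂, fun F Y H Z hF hH hsize hmed hlar hZ hZp hcard => ?_⟩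
  have hH1 : H₁ ≤ H := (le_max_left _ _).trans hH
  have hE := hH₂ H ((le_max_right _ _).trans hH)
  set bd : ℕ → Prop := fun p => Lar F H B p with hbd
  obtain ⟨s1, s2, s3, s4⟩ := Pool.Agent.K3h89.SZ.stripP g F H bd hF
  have hVs : V (strip F H bd) 1 H ≤ 2 * V F 1 H := by
    apply s4
    · exact hlar
    · intro p _ hb
      have h1 : 2 * ((g : ℝ) + 1) ≤ p := hE.trans hb.1
      exact_mod_cast h1
  have hcf : ∀ h p : ℕ, p.Prime → CF (strip F H bd) h p → p ≤ H ∧ ¬ bd p ∧ CF F h p := by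
    rintro h p hp ⟨x, hx1, hx2⟩
    rw [s2 x p hp] at hx1
    rw [s2 (x + h) p hp] at hx2
    exact ⟨hx1.1, hx1.2.1, x, hx1.2.2, hx2.2.2⟩
  refine heng (strip F H bd) Y H Z s1 hH1 ?_ ?_ ?_ hZ ?_ ?_
  · intro n hn
    obtain ⟨h1, h2⟩ := hsize n hn
    obtain ⟨g1, g2⟩ := s3 n h1
    exact ⟨g1, g2.trans h2⟩
  · intro h hh1 hhB
    refine le_trans ?_ (hmed h hh1 hhB)
    refine sum_le_sum_of_subset_of_nonneg ?_ fun _ _ _ => by positivity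
    intro p hp
    rw [mem_filter] at hp ⊢
    obtain ⟨hp1, hpp, hplog, hpc⟩ := hp
    obtain ⟨-, hnb, hcF⟩ := hcf h p hpp hpc
    refine ⟨hp1, hpp, hplog, ?_, hcF⟩
    by_contra hcon
    exact hnb ⟨not_lt.1 hcon, h, hh1, hhB, hcF⟩
  · intro h hh1 hhB p hpp hpE hpc
    obtain ⟨-, hnb, hcF⟩ := hcf h p hpp hpc
    exact hnb ⟨hpE, h, hh1, hhB, hcF⟩
  · intro n hn p hpp hpH hdv
    exact hZp n hn p hpp hpH ((s2 n p hpp).1 hdv).2.2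
  · refine le_trans ?_ hcard
    calc κ / 2 * (H * V (strip F H bd) 1 H) ≤ κ / 2 * (H * (2 * V F 1 H)) := by
          apply mul_le_mul_of_nonneg_left _ (by positivity)
          exact mul_le_mul_of_nonneg_left hVs (Nat.cast_nonneg _)
      _ = κ * (H * V F 1 H) := by ring

/-- all but few elements of `S` are terms of progressions -/
theorem few {k : ℕ} (hk : 2 ≤ k) {D c : ℝ} {S : Finset ℕ}
    (h : ∀ Z ⊆ S, c ≤ Z.card → ∃ a d : ℕ, 1 ≤ d ∧ (d : ℝ) ≤ D ∧ ∀ i < k, a + i * d ∈ Z) :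
    (Set.ncard {x : ℕ | x ∈ S ∧ ¬ InP S k D x} : ℝ) ≤ c := by
  classical
  set Z : Finset ℕ := S.filter (fun x => ¬ InP S k D x) with hZ
  have hZn : (Set.ncard {x : ℕ | x ∈ S ∧ ¬ InP S k D x} : ℝ) = Z.card := by
    have : {x : ℕ | x ∈ S ∧ ¬ InP S k D x} = (Z : Set ℕ) := by
      ext x
      rw [hZ, mem_coe, mem_filter]
      rfl
    rw [this, Set.ncard_coe_finset]
  rw [hZn]
  by_contra hcon
  push Not at hcon
  obtain ⟨a, d, hd1, hdB, hap⟩ := h Z (filter_subset _ _) hcon.le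
  have hk0 : 0 < k := by omega
  have ha := hap 0 hk0
  rw [zero_mul, add_zero] at ha
  have ha2 := ha
  rw [hZ, mem_filter] at ha2
  apply ha2.2
  refine ⟨a, d, hd1, hdB, fun i hi => ?_, 0, hk0, by simp⟩
  have := hap i hi
  rw [hZ, mem_filter] at this
  exact this.1

end Pool.Agent.U497.SP
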