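import Pool.Agent.K3h89.SZ.EXC

/-!
# Primes in prescribed classes modulo primes of medium size (helper497)

`tail`: for all but `N / (log X) ^ A` of the `n ≤ N` the sum of the reciprocals of the primes `p` of medium size for which
`n` lies in one of at most `g` given classes modulo `p` is small (a high moment). `first`: the same for large primes
(first moment).
-/

set_option autoImplicit false

namespace Pool.Agent.U497.SP

open Finset Filter Topology

open Pool.Agent.K3h89.SZ.EXC (M M_nonneg M_lower card_class sum_sq)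

/-- the moment, for at most `g` classes modulo each prime -/
lemma M_avg (g : ℕ) (R : ℕ → Finset ℕ) (hR : ∀ p, (R p).card ≤ g) (N Y : ℕ) (σ : ℝ)
    (hσ : 0 ≤ σ) (K : ℕ) : ∀ (Q a : ℕ) (U : Finset ℕ), 1 ≤ Q →
    (∀ p ∈ U, p.Prime ∧ Nat.Coprime Q p ∧ p ≤ Y) → (∑ p ∈ U, 1 / (p : ℝ) ^ 2 ≤ σ) →
    Q * Y ^ K ≤ N →
    ∑ n ∈ (Icc 1 N).filter (fun n => n % Q = a % Q), M K (U.filter (fun p => n % p ∈ R p)) ≤
      2 * N / Q * (g * σ) ^ K := by
  induction K with
  | zero =>
    intro Q a U hQ hU hS hN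
    simp only [M, sum_const, pow_zero, mul_one, nsmul_eq_mul]
    have hQ0 : (0 : ℝ) < Q := by exact_mod_cast hQ
    have hQN : (Q : ℝ) ≤ N := by
      rw [pow_zero, mul_one] at hN
      exact_mod_cast hN
    have h1 : ((((Icc 1 N).filter (fun n => n % Q = a % Q)).card : ℕ) : ℝ) ≤ ((N / Q + 1 : ℕ) : ℝ) := by
      exact_mod_cast card_class N Q a
    have h2 : ((N / Q : ℕ) : ℝ) ≤ (N : ℝ) / Q := Nat.cast_div_le
    have h3 : (1 : ℝ) ≤ (N : ℝ) / Q := by rw [le_div_iff₀ hQ0]; linarith
    push_cast at h1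
    calc _ ≤ ((N / Q : ℕ) : ℝ) + 1 := h1
      _ ≤ (N : ℝ) / Q + (N : ℝ) / Q := by linarith
      _ = 2 * N / Q := by ring
  | succ K ih =>
    intro Q a U hQ hU hS hN
    have hQ0 : (0 : ℝ) < Q := by exact_mod_cast hQ
    set A := (Icc 1 N).filter (fun n => n % Q = a % Q) with hA
    have h1 : ∀ n ∈ A, M (K + 1) (U.filter (fun p => n % p ∈ R p)) = ∑ p ∈ U, ∑ r ∈ R p,
        if n % p = r then 1 / (p : ℝ) * M K ((U.erase p).filter (fun p => n % p ∈ R p)) else 0 := by
      intro n _
      rw [M, sum_filter]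
      refine sum_congr rfl fun p _ => ?_
      rw [sum_ite_eq]
      split_ifs with h2
      · rw [← filter_erase]
      · rfl
    rw [sum_congr rfl h1, sum_comm]
    have h3 : ∀ p ∈ U, ∑ n ∈ A, ∑ r ∈ R p,
        (if n % p = r then 1 / (p : ℝ) * M K ((U.erase p).filter (fun p => n % p ∈ R p)) else 0) ≤
        (2 * N / Q * (g * σ) ^ K * g) * (1 / (p : ℝ) ^ 2) := by
      intro p hp
      obtain ⟨hpp, hpQ, hpY⟩ := hU p hp
      have hp0 : (0 : ℝ) < p := by exact_mod_cast hpp.pos
      rw [sum_comm]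
      have h4 : ∀ r ∈ R p, ∑ n ∈ A,
          (if n % p = r then 1 / (p : ℝ) * M K ((U.erase p).filter (fun p => n % p ∈ R p)) else 0) ≤
          1 / (p : ℝ) * (2 * N / ((Q * p : ℕ) : ℝ) * (g * σ) ^ K) := by
        intro r _
        obtain ⟨a', ha1, ha2⟩ := Nat.chineseRemainder hpQ a r
        rw [← sum_filter, ← mul_sum]
        apply mul_le_mul_of_nonneg_left _ (by positivity)
        refine le_trans ?_ (ih (Q * p) a' (U.erase p) ?_ ?_ ?_ ?_)
        · apply sum_le_sum_of_subset_of_nonneg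
          · intro n hn
            rw [mem_filter, hA, mem_filter] at hn
            rw [mem_filter]
            refine ⟨hn.1.1, ?_⟩
            have e1 : n ≡ a' [MOD Q] := Nat.ModEq.trans hn.1.2 ha1.symm
            have e2 : n ≡ a' [MOD p] := by
              refine Nat.ModEq.trans ?_ ha2.symm
              rw [← hn.2]
              exact (Nat.mod_modEq n p).symm
            exact (Nat.modEq_and_modEq_iff_modEq_mul hpQ).1 ⟨e1, e2⟩
          · intro n _ _
            exact M_nonneg _ _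
        · exact Nat.one_le_iff_ne_zero.2 (Nat.mul_ne_zero (by omega) hpp.pos.ne')
        · intro q hq
          rw [mem_erase] at hq
          obtain ⟨hqq, hqQ, hqY⟩ := hU q hq.2
          exact ⟨hqq, Nat.Coprime.mul_left hqQ ((Nat.coprime_primes hpp hqq).2 (Ne.symm hq.1)), hqY⟩
        · refine le_trans ?_ hS
          apply sum_le_sum_of_subset_of_nonneg (erase_subset _ _)
          intro q _ _
          positivity
        · calc Q * p * Y ^ K ≤ Q * Y * Y ^ K := by gcongr
            _ = Q * Y ^ (K + 1) := by ring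
            _ ≤ N := hN
      refine (sum_le_sum h4).trans ?_
      rw [sum_const, nsmul_eq_mul]
      have h5 : ((R p).card : ℝ) ≤ g := by exact_mod_cast hR p
      have h6 : 0 ≤ 1 / (p : ℝ) * (2 * N / ((Q * p : ℕ) : ℝ) * (g * σ) ^ K) := by positivity
      refine (mul_le_mul_of_nonneg_right h5 h6).trans (le_of_eq ?_)
      push_cast
      field_simp
    refine (sum_le_sum h3).trans ?_
    rw [← mul_sum]
    have h7 : 0 ≤ 2 * (N : ℝ) / Q * (g * σ) ^ K * g := by positivity
    refine (mul_le_mul_of_nonneg_left hS h7).trans (le_of_eq ?_)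
    ring

/-- **the tail**, primes of medium size -/
theorem tail (g A : ℕ) (ε : ℝ) (hε : 0 < ε) : ∃ X₀ : ℝ, ∀ X : ℝ, X₀ ≤ X → ∀ N : ℕ, √X ≤ N →
    ∀ (P : Finset ℕ) (R : ℕ → Finset ℕ),
    (∀ p ∈ P, p.Prime ∧ Real.log (Real.log X) / 2 < p ∧ (p : ℝ) ≤ Real.exp (√(Real.log X))) →
    (∀ p, (R p).card ≤ g) →
    (((Icc 1 N).filter (fun n => ε < ∑ p ∈ P.filter (fun p => n % p ∈ R p), 1 / (p : ℝ))).card : ℝ) ≤
      N / Real.log X ^ A := by
  have t1 : Tendsto (fun L : ℝ => Real.log L) atTop atTop := Real.tendsto_log_atTop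
  have t2 : Tendsto (fun L : ℝ => Real.log (Real.log L)) atTop atTop := Real.tendsto_log_atTop.comp t1
  have t4 : Tendsto (fun L : ℝ => √(Real.log L)) atTop atTop := Real.tendsto_sqrt_atTop.comp t1
  obtain ⟨X₀, hX₀⟩ := eventually_atTop.1 ((t2.eventually_ge_atTop (4 : ℝ)).and
    ((t2.eventually_ge_atTop (8 * (g * Real.exp (8 * (A + 1) / ε)) / ε)).and
    ((t2.eventually_ge_atTop (8 / ε)).and
    ((t4.eventually (Real.isLittleO_log_id_atTop.def (c := 1 / ε) (by positivity))).and
    ((t1.eventually_ge_atTop (2 : ℝ)).and (eventually_ge_atTop (4 : ℝ)))))))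
  refine ⟨X₀, fun X hX N hN P R hP hR => ?_⟩
  obtain ⟨k1, k3, k4, k5, k7, k8⟩ := hX₀ X hX
  set L : ℝ := Real.log X with hL
  have hL0 : 0 < L := by linarith
  have hX0 : 0 < X := by linarith
  set s : ℝ := Real.log L / 2 with hs
  have hs2 : 2 ≤ s := by rw [hs]; linarith
  have hs0 : 0 < s := by linarith
  have hLs : L = Real.exp (2 * s) := by rw [hs, mul_div_cancel₀ _ two_ne_zero, Real.exp_log hL0]
  set K : ℕ := ⌊ε * s / 2⌋₊ with hK
  have hK1 : (K : ℝ) ≤ ε * s / 2 := Nat.floor_le (by positivity)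
  have hK2 : ε * s / 4 ≤ K := by
    have h1 := Nat.lt_floor_add_one (ε * s / 2)
    rw [← hK] at h1
    have h2 : 4 ≤ ε * s := by
      have h3 : 8 / ε / 2 ≤ s := by rw [hs]; linarith
      have := mul_le_mul_of_nonneg_left h3 hε.le
      rw [div_div, mul_div_assoc', mul_comm ε 8, mul_comm ε 2, mul_div_mul_right _ _ hε.ne'] at this
      linarith
    linarith
  set Y : ℕ := ⌊Real.exp (√L)⌋₊ with hY
  have hY1 : (Y : ℝ) ≤ Real.exp (√L) := Nat.floor_le (Real.exp_pos _).le
  have hYK : 1 * Y ^ K ≤ N := by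
    rw [one_mul]
    have h1 : (Y : ℝ) ^ K ≤ √X := by
      calc (Y : ℝ) ^ K ≤ (Real.exp (√L)) ^ K := pow_le_pow_left₀ (Nat.cast_nonneg _) hY1 _
        _ = Real.exp (K * √L) := by rw [← Real.exp_nat_mul]
        _ ≤ Real.exp (L / 2) := by
          apply Real.exp_le_exp.2
          have h2 : √L * √L = L := Real.mul_self_sqrt hL0.le
          have h3 : Real.log (√L) = s := by rw [Real.log_sqrt hL0.le]
          have h4 : s ≤ 1 / ε * √L := by
            simp only [id] at k5
            rw [h3, Real.norm_of_nonneg hs0.le, Real.norm_of_nonneg (Real.sqrt_nonneg _)] at k5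
            exact k5
          have h5 : ε * s / 2 ≤ √L / 2 := by
            have h6 := mul_le_mul_of_nonneg_left h4 hε.le
            have h7 : ε * (1 / ε * √L) = √L := by field_simp
            rw [h7] at h6
            linarith
          calc (K : ℝ) * √L ≤ (√L / 2) * √L :=
                mul_le_mul_of_nonneg_right (hK1.trans h5) (Real.sqrt_nonneg _)
            _ = L / 2 := by rw [div_mul_eq_mul_div, h2]
        _ = √X := by
          rw [Real.sqrt_eq_rpow, Real.rpow_def_of_pos hX0, ← hL]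
          congr 1
          ring
    exact_mod_cast h1.trans hN
  have hσ : ∑ p ∈ P, 1 / (p : ℝ) ^ 2 ≤ 2 / s :=
    sum_sq hs2 P Y fun p hp => ⟨(hP p hp).2.1, Nat.le_floor (hP p hp).2.2⟩
  set T : Finset ℕ := (Icc 1 N).filter (fun n => ε < ∑ p ∈ P.filter (fun p => n % p ∈ R p), 1 / (p : ℝ)) with hT
  have h1 := M_avg g R hR N Y (2 / s) (by positivity) K 1 0 P le_rfl
    (fun p hp => ⟨(hP p hp).1, Nat.coprime_one_left _, Nat.le_floor (hP p hp).2.2⟩) hσ hYK
  have h2 : (T.card : ℝ) * (ε / 2) ^ K ≤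
      ∑ n ∈ (Icc 1 N).filter (fun n => n % 1 = 0 % 1), M K (P.filter (fun p => n % p ∈ R p)) := by
    calc (T.card : ℝ) * (ε / 2) ^ K = ∑ n ∈ T, (ε / 2) ^ K := by
          rw [sum_const, nsmul_eq_mul]
      _ ≤ ∑ n ∈ T, M K (P.filter (fun p => n % p ∈ R p)) := by
          apply sum_le_sum
          intro n hn
          rw [hT, mem_filter] at hn
          apply M_lower (1 / s) (ε / 2) (by positivity) (by positivity) K
          · intro p hp
            rw [mem_filter] at hp
            exact one_div_le_one_div_of_le hs0 (hP p hp.1).2.1.le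
          · have h3 : (K : ℝ) * (1 / s) ≤ ε / 2 := by
              rw [mul_one_div, div_le_iff₀ hs0]
              linarith
            linarith [hn.2]
      _ ≤ _ := by
          apply sum_le_sum_of_subset_of_nonneg
          · intro n hn
            rw [hT, mem_filter] at hn
            rw [mem_filter]
            exact ⟨hn.1, by rw [Nat.mod_one, Nat.mod_one]⟩
          · intro n _ _
            exact M_nonneg _ _
  have h3 := h2.trans h1
  have h4 : (0 : ℝ) < (ε / 2) ^ K := by positivity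
  have h5 : (T.card : ℝ) ≤ 2 * N * (4 * g / (ε * s)) ^ K := by
    rw [← le_div_iff₀ h4] at h3
    refine h3.trans (le_of_eq ?_)
    push_cast
    rw [div_one, mul_div_assoc, ← div_pow]
    congr 2
    field_simp
    ring
  have h6 : 4 * g / (ε * s) ≤ Real.exp (-(8 * (A + 1) / ε)) := by
    rw [Real.exp_neg, div_le_iff₀ (by positivity), inv_mul_eq_div,
      le_div_iff₀ (Real.exp_pos _)]
    rw [div_le_iff₀ hε] at k3
    have e : Real.log L * ε = 2 * (ε * s) := by rw [hs]; ring
    rw [e] at k3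
    linarith
  have h7 : (4 * g / (ε * s)) ^ K ≤ Real.exp (-((A + 1) * (2 * s))) := by
    calc (4 * g / (ε * s)) ^ K ≤ (Real.exp (-(8 * (A + 1) / ε))) ^ K :=
          pow_le_pow_left₀ (by positivity) h6 _
      _ = Real.exp (-(8 * (A + 1) / ε * K)) := by rw [← Real.exp_nat_mul]; congr 1; ring
      _ ≤ Real.exp (-((A + 1) * (2 * s))) := by
        apply Real.exp_le_exp.2
        apply neg_le_neg
        have h7 : 0 ≤ 8 * ((A : ℝ) + 1) / ε := by positivity
        calc ((A : ℝ) + 1) * (2 * s) = 8 * (A + 1) / ε * (ε * s / 4) := by field_simp; ring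
          _ ≤ _ := mul_le_mul_of_nonneg_left hK2 h7
  have h8 : Real.exp (-((A + 1) * (2 * s))) = 1 / L ^ (A + 1) := by
    rw [Real.exp_neg, one_div, hLs, ← Real.exp_nat_mul]
    congr 2
    push_cast
    ring
  rw [h8] at h7
  calc (T.card : ℝ) ≤ 2 * N * (1 / L ^ (A + 1)) := h5.trans (mul_le_mul_of_nonneg_left h7 (by positivity))
    _ = (2 / L) * (N / L ^ A) := by rw [pow_succ]; field_simp
    _ ≤ 1 * (N / L ^ A) := by
      apply mul_le_mul_of_nonneg_right _ (by positivity)
      rw [div_le_one hL0]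
      exact k7
    _ = N / L ^ A := one_mul _

/-- **the first moment**, large primes -/
theorem first (g : ℕ) (N : ℕ) (P : Finset ℕ) (R : ℕ → Finset ℕ) (E : ℝ) (hE : 2 ≤ E)
    (hP : ∀ p ∈ P, p.Prime ∧ E < p ∧ p ≤ N) (hR : ∀ p, (R p).card ≤ g) :
    ∑ n ∈ Icc 1 N, ∑ p ∈ P.filter (fun p => n % p ∈ R p), 1 / (p : ℝ) ≤ 4 * g * N / E := by
  have h1 : ∀ n ∈ Icc 1 N, ∑ p ∈ P.filter (fun p => n % p ∈ R p), 1 / (p : ℝ) =
      ∑ p ∈ P, ∑ r ∈ R p, if n % p = r then 1 / (p : ℝ) else 0 := by
    intro n _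
    rw [sum_filter]
    refine sum_congr rfl fun p _ => ?_
    rw [sum_ite_eq]
  rw [sum_congr rfl h1, sum_comm]
  have h2 : ∀ p ∈ P, ∑ n ∈ Icc 1 N, ∑ r ∈ R p, (if n % p = r then 1 / (p : ℝ) else 0) ≤
      (2 * g * N) * (1 / (p : ℝ) ^ 2) := by
    intro p hp
    obtain ⟨hpp, hpE, hpN⟩ := hP p hp
    have hp0 : (0 : ℝ) < p := by exact_mod_cast hpp.pos
    rw [sum_comm]
    have h3 : ∀ r ∈ R p, ∑ n ∈ Icc 1 N, (if n % p = r then 1 / (p : ℝ) else 0) ≤ 2 * N * (1 / (p : ℝ) ^ 2) := by
      intro r _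
      rw [← sum_filter, sum_const, nsmul_eq_mul]
      have h4 : ((Icc 1 N).filter (fun n => n % p = r)).card ≤ N / p + 1 := by
        by_cases hr : r < p
        · have := card_class N p r
          rwa [Nat.mod_eq_of_lt hr] at this
        · rw [filter_false_of_mem, card_empty]
          · exact Nat.zero_le _
          · intro n _ h5
            have := Nat.mod_lt n hpp.pos
            omega
      have h5 : (((Icc 1 N).filter (fun n => n % p = r)).card : ℝ) ≤ 2 * (N / p) := by
        have h6 : ((N / p : ℕ) : ℝ) ≤ (N : ℝ) / p := Nat.cast_div_le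
        have h7 : (1 : ℝ) ≤ (N : ℝ) / p := by
          rw [le_div_iff₀ hp0, one_mul]
          exact_mod_cast hpN
        have h8 : (((Icc 1 N).filter (fun n => n % p = r)).card : ℝ) ≤ ((N / p : ℕ) : ℝ) + 1 := by
          exact_mod_cast h4
        linarith
      calc _ ≤ 2 * (N / p) * (1 / (p : ℝ)) := mul_le_mul_of_nonneg_right h5 (by positivity)
        _ = _ := by field_simp
    refine (sum_le_sum h3).trans ?_
    rw [sum_const, nsmul_eq_mul]
    have h5 : ((R p).card : ℝ) ≤ g := by exact_mod_cast hR p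
    have h6 : 0 ≤ 2 * (N : ℝ) * (1 / (p : ℝ) ^ 2) := by positivity
    refine (mul_le_mul_of_nonneg_right h5 h6).trans (le_of_eq ?_)
    ring
  refine (sum_le_sum h2).trans ?_
  rw [← mul_sum]
  have h3 := sum_sq hE P N fun p hp => ⟨(hP p hp).2.1, (hP p hp).2.2⟩
  calc 2 * (g : ℝ) * N * ∑ p ∈ P, 1 / (p : ℝ) ^ 2 ≤ 2 * (g : ℝ) * N * (2 / E) :=
        mul_le_mul_of_nonneg_left h3 (by positivity)
    _ = _ := by ring

end Pool.Agent.U497.SP
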