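import Mathlib

/-!
# Second moment of a sum over primes of functions which are periodic with mean zero (helper497)
-/

set_option autoImplicit false

namespace Pool.Agent.U497.SP

open Finset

/-- sums of a periodic function with mean zero -/
lemma per_bound (m : ℕ) (hm : 0 < m) (φ : ℕ → ℝ) (hper : ∀ n, φ (m + n) = φ n)
    (hz : ∑ n ∈ range m, φ n = 0) (G : ℝ) (hG : ∀ n, |φ n| ≤ G) (N : ℕ) :
    |∑ n ∈ range N, φ n| ≤ m * G := by
  have hG0 : 0 ≤ G := (abs_nonneg _).trans (hG 0)
  induction N using Nat.strong_induction_on with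
  | _ N ih =>
    by_cases h : N < m
    · calc |∑ n ∈ range N, φ n| ≤ ∑ n ∈ range N, |φ n| := abs_sum_le_sum_abs _ _
        _ ≤ ∑ _n ∈ range N, G := sum_le_sum fun n _ => hG n
        _ = N * G := by rw [sum_const, card_range, nsmul_eq_mul]
        _ ≤ m * G := by
          apply mul_le_mul_of_nonneg_right _ hG0
          exact_mod_cast h.le
    · obtain ⟨r, rfl⟩ : ∃ r, N = m + r := ⟨N - m, by omega⟩
      rw [sum_range_add, hz, zero_add]
      have e : ∑ x ∈ range r, φ (m + x) = ∑ x ∈ range r, φ x := sum_congr rfl fun x _ => hper x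
      rw [e]
      exact ih r (by omega)

lemma per_mod {p : ℕ} {f : ℕ → ℝ} (hf : ∀ n, f (p + n) = f n) (n : ℕ) : f (n % p) = f n := by
  have h : ∀ k n, f (p * k + n) = f n := by
    intro k
    induction k with
    | zero => intro n; simp
    | succ k ih =>
      intro n
      rw [mul_add, mul_one, add_assoc, ih, hf]
  conv_rhs => rw [← Nat.div_add_mod n p]
  rw [h]

/-- Chinese remainder theorem for sums -/
lemma crt_sum {p q : ℕ} (hp : 0 < p) (hq : 0 < q) (hpq : Nat.Coprime p q) (f g : ℕ → ℝ)
    (hf : ∀ n, f (p + n) = f n) (hg : ∀ n, g (q + n) = g n) :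
    ∑ n ∈ range (p * q), f n * g n = (∑ n ∈ range p, f n) * ∑ n ∈ range q, g n := by
  rw [sum_mul_sum, ← sum_product']
  symm
  refine sum_nbij' (fun x : ℕ × ℕ => (Nat.chineseRemainder hpq x.1 x.2 : ℕ)) (fun n => (n % p, n % q)) ?_ ?_ ?_ ?_ ?_
  · rintro ⟨a, b⟩ _
    exact mem_range.2 (Nat.chineseRemainder_lt_mul hpq a b hp.ne' hq.ne')
  · intro n _
    rw [mem_product, mem_range, mem_range]
    exact ⟨Nat.mod_lt _ hp, Nat.mod_lt _ hq⟩
  · rintro ⟨a, b⟩ h
    rw [mem_product, mem_range, mem_range] at h
    obtain ⟨h1, h2⟩ := (Nat.chineseRemainder hpq a b).2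
    simp only [Prod.mk.injEq]
    refine ⟨?_, ?_⟩
    · have h3 : (Nat.chineseRemainder hpq a b : ℕ) % p = a % p := h1
      rw [h3, Nat.mod_eq_of_lt h.1]
    · have h3 : (Nat.chineseRemainder hpq a b : ℕ) % q = b % q := h2
      rw [h3, Nat.mod_eq_of_lt h.2]
  · intro n hn
    rw [mem_range] at hn
    obtain ⟨h1, h2⟩ := (Nat.chineseRemainder hpq (n % p) (n % q)).2
    have h3 : (Nat.chineseRemainder hpq (n % p) (n % q) : ℕ) ≡ n [MOD p] := h1.trans (Nat.mod_modEq n p)
    have h4 : (Nat.chineseRemainder hpq (n % p) (n % q) : ℕ) ≡ n [MOD q] := h2.trans (Nat.mod_modEq n q)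
    have h5 := (Nat.modEq_and_modEq_iff_modEq_mul hpq).1 ⟨h3, h4⟩
    exact Nat.ModEq.eq_of_lt_of_lt h5 (Nat.chineseRemainder_lt_mul hpq _ _ hp.ne' hq.ne') hn
  · rintro ⟨a, b⟩ _
    obtain ⟨h1, h2⟩ := (Nat.chineseRemainder hpq a b).2
    have h3 : (Nat.chineseRemainder hpq a b : ℕ) % p = a % p := h1
    have h4 : (Nat.chineseRemainder hpq a b : ℕ) % q = b % q := h2
    simp only
    rw [← per_mod hf (Nat.chineseRemainder hpq a b : ℕ), h3, per_mod hf, ← per_mod hg (Nat.chineseRemainder hpq a b : ℕ),
      h4, per_mod hg]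

/-- **the second moment** -/
theorem var (P : Finset ℕ) (f : ℕ → ℕ → ℝ) (G : ℝ) (hG : 0 ≤ G)
    (hP : ∀ p ∈ P, p.Prime) (hper : ∀ p ∈ P, ∀ n, f p (p + n) = f p n)
    (hz : ∀ p ∈ P, ∑ n ∈ range p, f p n = 0) (hb : ∀ p ∈ P, ∀ n, |f p n| ≤ G) (N : ℕ) :
    ∑ n ∈ range N, (∑ p ∈ P, f p n / p) ^ 2 ≤ N * G ^ 2 * ∑ p ∈ P, 1 / (p : ℝ) ^ 2 + G ^ 2 * (P.card : ℝ) ^ 2 := by
  have e1 : ∀ n ∈ range N, (∑ p ∈ P, f p n / p) ^ 2 = ∑ p ∈ P, ∑ q ∈ P, (f p n / p) * (f q n / q) := by
    intro n _
    rw [sq, sum_mul_sum]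
  rw [sum_congr rfl e1, sum_comm]
  have h1 : ∀ p ∈ P, ∑ n ∈ range N, ∑ q ∈ P, (f p n / p) * (f q n / q) ≤
      N * G ^ 2 * (1 / (p : ℝ) ^ 2) + G ^ 2 * P.card := by
    intro p hp
    have hp0 : (0 : ℝ) < p := by exact_mod_cast (hP p hp).pos
    rw [sum_comm, ← sum_erase_add P _ hp, add_comm]
    apply add_le_add
    · calc ∑ n ∈ range N, (f p n / p) * (f p n / p) ≤ ∑ _n ∈ range N, G ^ 2 * (1 / (p : ℝ) ^ 2) := by
            apply sum_le_sum
            intro n _
            have h2 : f p n ^ 2 ≤ G ^ 2 := sq_le_sq' (by linarith [(abs_le.1 (hb p hp n)).1]) (abs_le.1 (hb p hp n)).2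
            calc (f p n / p) * (f p n / p) = f p n ^ 2 * (1 / (p : ℝ) ^ 2) := by field_simp
              _ ≤ _ := mul_le_mul_of_nonneg_right h2 (by positivity)
        _ = _ := by rw [sum_const, card_range, nsmul_eq_mul]; ring
    · calc ∑ q ∈ P.erase p, ∑ n ∈ range N, (f p n / p) * (f q n / q) ≤ ∑ _q ∈ P.erase p, G ^ 2 := by
            apply sum_le_sum
            intro q hq
            rw [mem_erase] at hq
            have hq0 : (0 : ℝ) < q := by exact_mod_cast (hP q hq.2).pos
            have hpq : Nat.Coprime p q := (Nat.coprime_primes (hP p hp) (hP q hq.2)).2 (Ne.symm hq.1)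
            have e2 : ∑ n ∈ range N, (f p n / p) * (f q n / q) = (∑ n ∈ range N, f p n * f q n) / (p * q) := by
              rw [sum_div]
              refine sum_congr rfl fun n _ => ?_
              field_simp
            rw [e2]
            have h2 := per_bound (p * q) (Nat.mul_pos (hP p hp).pos (hP q hq.2).pos) (fun n => f p n * f q n) (by
                intro n
                have e3 : ∀ k n, f p (p * k + n) = f p n := by
                  intro k
                  induction k with
                  | zero => intro n; simp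
                  | succ k ih =>
                    intro n
                    rw [mul_add, mul_one, add_assoc, ih, hper p hp]
                have e4 : ∀ k n, f q (q * k + n) = f q n := by
                  intro k
                  induction k with
                  | zero => intro n; simp
                  | succ k ih =>
                    intro n
                    rw [mul_add, mul_one, add_assoc, ih, hper q hq.2]
                rw [e3 q n, mul_comm p q, e4 p n]) (by
                rw [crt_sum (hP p hp).pos (hP q hq.2).pos hpq (f p) (f q) (hper p hp) (hper q hq.2), hz p hp, zero_mul])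
              (G ^ 2) (by
                intro n
                rw [abs_mul, sq]
                exact mul_le_mul (hb p hp n) (hb q hq.2 n) (abs_nonneg _) hG) N
            push_cast at h2
            rw [div_le_iff₀ (by positivity)]
            have h3 := (abs_le.1 h2).2
            linarith
        _ ≤ G ^ 2 * P.card := by
            rw [sum_const, nsmul_eq_mul, mul_comm]
            apply mul_le_mul_of_nonneg_left _ (by positivity)
            exact_mod_cast card_le_card (erase_subset _ _)
  refine (sum_le_sum h1).trans (le_of_eq ?_)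
  rw [sum_add_distrib, ← mul_sum, sum_const, nsmul_eq_mul]
  ring

end Pool.Agent.U497.SP
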