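import Pool.Agent.U497.SP.Box

/-!
# Almost all polynomials: few common prime factors of `F(x)`, `F(x + h)` (helper497)
-/

set_option autoImplicit false

namespace Pool.Agent.U497.SP

open Finset Polynomial Filter Topology

open Pool.Agent.Y677.RSZ (rt V)
open Pool.Agent.K3h89.SZ (SysP CF)
open Pool.Agent.K3h89.SZ.EXC (sum_dvd sum_sq)
open Pool.Agent.H300R2.BH (rho SS FF)
open Pool.Agent.H300R2.FB (FP Rr bx)
open Pool.Agent.TH892 (pol box sum_box card_box)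

/-- the classes, empty in the degenerate cases -/
noncomputable def Rd (G : ℤ[X]) (j d h p : ℕ) : Finset ℕ := by
  classical exact if p.Prime ∧ j < p ∧ ¬ p ∣ h ∧ ¬ p ∣ d then Rc G h p else ∅

lemma card_Rd {G : ℤ[X]} {j d : ℕ} (hj : 1 ≤ j) (hG : G.natDegree ≤ j) (hd : G.coeff j = d) (h p : ℕ) :
    (Rd G j d h p).card ≤ j := by
  unfold Rd
  split_ifs with h0
  · obtain ⟨h1, h2, h3, h4⟩ := h0
    apply card_Rc h1 hj hG h2 h3
    rw [hd]
    intro h5
    exact h4 (Int.natCast_dvd_natCast.1 h5)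
  · simp

lemma mem_Rd {G : ℤ[X]} {j d h p a : ℕ} (hp : p.Prime) (hjp : j < p) (hh : ¬ p ∣ h) (hd : ¬ p ∣ d)
    (H : CF (fn (C (a : ℤ) + G)) h p) : a % p ∈ Rd G j d h p := by
  unfold Rd
  rw [if_pos ⟨hp, hjp, hh, hd⟩]
  exact mod_mem_Rc hp H

lemma sum_biUnion_le' (s : Finset ℕ) (T : ℕ → Finset ℕ) (f : ℕ → ℝ) (hf : ∀ x, 0 ≤ f x) :
    ∑ p ∈ s.biUnion T, f p ≤ ∑ h ∈ s, ∑ p ∈ T h, f p := by
  classical
  induction s using Finset.induction_on with
  | empty => simp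
  | insert a s ha ih =>
    rw [Finset.biUnion_insert, Finset.sum_insert ha]
    have h1 := Finset.sum_union_inter (s₁ := T a) (s₂ := s.biUnion T) (f := f)
    have h2 : 0 ≤ ∑ p ∈ T a ∩ s.biUnion T, f p := Finset.sum_nonneg fun x _ => hf x
    linarith

open Classical in
/-- **medium primes** -/
theorem med (j : ℕ) (hj : 1 ≤ j) (B A : ℕ) (η : ℝ) (hη : 0 < η) : ∃ H₀ : ℕ, ∀ H : ℕ, H₀ ≤ H →
    (((box j H).filter (fun c => ∃ h : ℕ, 1 ≤ h ∧ (h : ℝ) ≤ Real.log H ^ B ∧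
      η < ∑ p ∈ (Pm H).filter (fun p => CF (fn (pol c)) h p), (1 : ℝ) / p)).card : ℝ) ≤
      ((box j H).card : ℝ) / Real.log H ^ A := by
  obtain ⟨H₁, h1⟩ := Pd_count (A + 1) η hη
  obtain ⟨X₀, h2⟩ := tail j (A + B + 1) (η / 3) (by positivity)
  have tc : Tendsto (fun H : ℕ => (H : ℝ)) atTop atTop := tendsto_natCast_atTop_atTop
  have tl : Tendsto (fun H : ℕ => Real.log (H : ℝ)) atTop atTop := Real.tendsto_log_atTop.comp tc
  have t2 : Tendsto (fun H : ℕ => Real.log (Real.log (H : ℝ)) / 2) atTop atTop :=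
    (Real.tendsto_log_atTop.comp tl).atTop_div_const (by norm_num)
  have t3 : Tendsto (fun H : ℕ => Real.log (Real.log (Real.log (H : ℝ)) / 2)) atTop atTop :=
    Real.tendsto_log_atTop.comp t2
  obtain ⟨H₂, hH₂⟩ := eventually_atTop.1 ((tc.eventually_ge_atTop X₀).and ((tl.eventually_ge_atTop 2).and
    ((tc.eventually_ge_atTop 1).and ((t2.eventually_ge_atTop (j : ℝ)).and ((t2.eventually_ge_atTop 2).and
    (t3.eventually_ge_atTop (3 * ((2 * B : ℕ) : ℝ) / η)))))))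
  refine ⟨max H₁ H₂, fun H hH => ?_⟩
  obtain ⟨k1, k2, k3, k4, k5, k6⟩ := hH₂ H ((le_max_right _ _).trans hH)
  have hd := h1 H ((le_max_left _ _).trans hH)
  set L := Real.log (H : ℝ) with hL
  set s : ℝ := Real.log L / 2 with hs
  have hL0 : 0 < L := by linarith
  have hLs : L = Real.exp (2 * s) := by rw [hs, mul_div_cancel₀ _ two_ne_zero, Real.exp_log hL0]
  refine box_count2 hj H A (fun F => ∃ h : ℕ, 1 ≤ h ∧ (h : ℝ) ≤ L ^ B ∧
      η < ∑ p ∈ (Pm H).filter (fun p => CF (fn F) h p), (1 : ℝ) / p) (Pd (A + 1) η (H : ℝ)) k2 hd ?_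
  intro r _ d hd1 hnd
  unfold Pd at hnd
  rw [not_or] at hnd
  have hnd2 := not_lt.1 hnd.2
  set G := GP j H r d with hG
  have hGd : G.natDegree ≤ j := GP_natDegree hj H r d
  have hGc : G.coeff j = d := GP_coeff hj H r d
  set N : ℕ := 2 * H + 1 with hN
  have hNr : ((N : ℕ) : ℝ) = 2 * H + 1 := by rw [hN]; push_cast; ring
  have hsqN : √(H : ℝ) ≤ N := by
    rw [hNr, Real.sqrt_le_left (by linarith)]
    nlinarith
  set T : ℕ → Finset ℕ := fun h => (Icc 1 N).filter (fun n =>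
    η / 3 < ∑ p ∈ (Pm H).filter (fun p => n % p ∈ Rd G j d h p), 1 / (p : ℝ)) with hT
  have hTc : ∀ h, ((T h).card : ℝ) ≤ N / L ^ (A + B + 1) := fun h =>
    h2 H k1 N hsqN (Pm H) (Rd G j d h) (fun p hp => mem_Pm.1 hp) (card_Rd hj hGd hGc h)
  have hsub : (Icc 1 N).filter (fun a : ℕ => ∃ h : ℕ, 1 ≤ h ∧ (h : ℝ) ≤ L ^ B ∧
      η < ∑ p ∈ (Pm H).filter (fun p => CF (fn (C (a : ℤ) + G)) h p), (1 : ℝ) / p) ⊆
      (Icc 1 ⌊L ^ B⌋₊).biUnion T := by
    intro a ha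
    rw [mem_filter] at ha
    obtain ⟨ha1, h, hh1, hh2, hh3⟩ := ha
    rw [mem_biUnion]
    refine ⟨h, mem_Icc.2 ⟨hh1, Nat.le_floor hh2⟩, ?_⟩
    rw [hT, mem_filter]
    refine ⟨ha1, ?_⟩
    have e1 : ∑ p ∈ (Pm H).filter (fun p => p ∣ h), 1 / (p : ℝ) ≤ η / 3 := by
      refine (sum_dvd k5 (2 * B) ((Pm H).filter (fun p => p ∣ h)) h hh1 ?_ ?_).trans ?_
      · refine hh2.trans (le_of_eq ?_)
        rw [hLs, ← Real.exp_nat_mul]
        congr 1
        push_cast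
        ring
      · intro p hp
        rw [mem_filter, mem_Pm] at hp
        exact ⟨hp.1.1, hp.1.2.1, hp.2⟩
      · have hls : 0 < Real.log s := Real.log_pos (by linarith)
        rw [div_le_iff₀ hls]
        rw [div_le_iff₀ hη] at k6
        linarith
    have e2 : (Pm H).filter (fun p => CF (fn (C (a : ℤ) + G)) h p) ⊆
        ((Pm H).filter (fun p => p ∣ h) ∪ (Pm H).filter (fun p => p ∣ d)) ∪
          (Pm H).filter (fun p => a % p ∈ Rd G j d h p) := by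
      intro p hp
      rw [mem_filter] at hp
      obtain ⟨hpP, hp5⟩ := hp
      have hpP' := mem_Pm.1 hpP
      rw [mem_union, mem_union, mem_filter, mem_filter, mem_filter]
      by_cases g1 : p ∣ h
      · left; left; exact ⟨hpP, g1⟩
      · by_cases g2 : p ∣ d
        · left; right; exact ⟨hpP, g2⟩
        · right
          refine ⟨hpP, mem_Rd hpP'.1 ?_ g1 g2 hp5⟩
          have : (j : ℝ) < p := lt_of_le_of_lt k4 hpP'.2.1
          exact_mod_cast this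
    have e3 : ∑ p ∈ (Pm H).filter (fun p => CF (fn (C (a : ℤ) + G)) h p), (1 : ℝ) / p ≤
        (∑ p ∈ (Pm H).filter (fun p => p ∣ h), 1 / (p : ℝ) + ∑ p ∈ (Pm H).filter (fun p => p ∣ d), 1 / (p : ℝ)) +
          ∑ p ∈ (Pm H).filter (fun p => a % p ∈ Rd G j d h p), 1 / (p : ℝ) := by
      refine (sum_le_sum_of_subset_of_nonneg e2 fun _ _ _ => by positivity).trans ?_
      have u1 : ∀ S T : Finset ℕ, ∑ p ∈ S ∪ T, (1 : ℝ) / p ≤ ∑ p ∈ S, (1 : ℝ) / p + ∑ p ∈ T, (1 : ℝ) / p := by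
        intro S T
        rw [← sum_union_inter]
        exact le_add_of_nonneg_right (sum_nonneg fun _ _ => by positivity)
      exact (u1 _ _).trans (add_le_add (u1 _ _) le_rfl)
    linarith
  have hcard : (((Icc 1 ⌊L ^ B⌋₊).biUnion T).card : ℝ) ≤ L ^ B * (N / L ^ (A + B + 1)) := by
    have h3 : (((Icc 1 ⌊L ^ B⌋₊).biUnion T).card : ℝ) ≤ ∑ m ∈ Icc 1 ⌊L ^ B⌋₊, ((T m).card : ℝ) := by
      exact_mod_cast card_biUnion_le
    refine h3.trans ((sum_le_sum fun m _ => hTc m).trans ?_)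
    rw [sum_const, nsmul_eq_mul, Nat.card_Icc, Nat.add_sub_cancel]
    exact mul_le_mul_of_nonneg_right (Nat.floor_le (by positivity)) (by positivity)
  calc _ ≤ (((Icc 1 ⌊L ^ B⌋₊).biUnion T).card : ℝ) := by exact_mod_cast card_le_card hsub
    _ ≤ _ := hcard
    _ = N / L ^ (A + 1) := by
      rw [show A + B + 1 = B + (A + 1) by ring, pow_add]
      field_simp

open Classical in
/-- **large primes** -/
theorem lar (j : ℕ) (hj : 1 ≤ j) (B A : ℕ) (ε τ : ℝ) (hε : 0 < ε) (hτ : 0 < τ) : ∃ H₀ : ℕ, ∀ H : ℕ, H₀ ≤ H →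
    (((box j H).filter (fun c => τ < ∑ p ∈ (Icc 1 H).filter (fun p : ℕ => p.Prime ∧
      Real.exp (√(ε * Real.log H)) ≤ p ∧ ∃ h : ℕ, 1 ≤ h ∧ (h : ℝ) ≤ Real.log H ^ B ∧ CF (fn (pol c)) h p),
        (1 : ℝ) / p)).card : ℝ) ≤
      ((box j H).card : ℝ) / Real.log H ^ A := by
  have tc : Tendsto (fun H : ℕ => (H : ℝ)) atTop atTop := tendsto_natCast_atTop_atTop
  have tl : Tendsto (fun H : ℕ => Real.log (H : ℝ)) atTop atTop := Real.tendsto_log_atTop.comp tc
  have hpoly : ∀ (n : ℕ) (c : ℝ), ∀ᶠ H : ℕ in atTop, c * Real.log (H : ℝ) ^ n < Real.exp (√(ε * Real.log (H : ℝ))) := by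
    intro n c
    have t1 : Tendsto (fun H : ℕ => √(ε * Real.log (H : ℝ))) atTop atTop :=
      Real.tendsto_sqrt_atTop.comp (tl.const_mul_atTop hε)
    have t2 := (Real.tendsto_pow_mul_exp_neg_atTop_nhds_zero (2 * n)).comp t1
    have t3 : ∀ᶠ H : ℕ in atTop, √(ε * Real.log (H : ℝ)) ^ (2 * n) * Real.exp (-√(ε * Real.log (H : ℝ))) <
        ε ^ n / (|c| + 1) := t2.eventually (gt_mem_nhds (by positivity))
    filter_upwards [t3, tl.eventually_ge_atTop 0] with H h1 h2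
    rw [pow_mul, Real.sq_sqrt (by positivity), Real.exp_neg, ← div_eq_mul_inv, div_lt_div_iff₀ (Real.exp_pos _) (by positivity),
      mul_pow] at h1
    have h3 : 0 < ε ^ n := by positivity
    have h4 : Real.log (H : ℝ) ^ n * (|c| + 1) < Real.exp (√(ε * Real.log (H : ℝ))) := by
      have h5 : ε ^ n * (Real.log (H : ℝ) ^ n * (|c| + 1)) < ε ^ n * Real.exp (√(ε * Real.log (H : ℝ))) := by
        linarith
      exact lt_of_mul_lt_mul_left h5 h3.le
    refine lt_of_le_of_lt ?_ h4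
    have h6 : c ≤ |c| + 1 := by linarith [le_abs_self c]
    rw [mul_comm]
    exact mul_le_mul_of_nonneg_left h6 (by positivity)
  obtain ⟨H₀, hH₀⟩ := eventually_atTop.1 ((tl.eventually_ge_atTop 2).and ((hpoly 0 4).and ((hpoly B 1).and
    ((hpoly 1 (4 / τ)).and ((hpoly (A + B + 1) (16 * j / τ)).and (hpoly 0 j))))))
  refine ⟨H₀, fun H hH => ?_⟩
  obtain ⟨k1, k2, k3, k4, k5, k6⟩ := hH₀ H hH
  set L := Real.log (H : ℝ) with hL
  set E : ℝ := Real.exp (√(ε * L)) with hE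
  rw [pow_zero, mul_one] at k2 k6
  rw [one_mul] at k3
  rw [pow_one] at k4
  have hL0 : 0 < L := by linarith
  have hE0 : 0 < E := Real.exp_pos _
  refine box_count2 hj H A (fun F => τ < ∑ p ∈ (Icc 1 H).filter (fun p : ℕ => p.Prime ∧
      E ≤ p ∧ ∃ h : ℕ, 1 ≤ h ∧ (h : ℝ) ≤ L ^ B ∧ CF (fn F) h p), (1 : ℝ) / p) (fun _ => False) k1 (by
        rw [filter_false, card_empty, Nat.cast_zero]; positivity) ?_
  intro r _ d hd1 _
  rw [mem_Ioc] at hd1
  set G := GP j H r d with hG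
  have hGd : G.natDegree ≤ j := GP_natDegree hj H r d
  have hGc : G.coeff j = d := GP_coeff hj H r d
  set N : ℕ := 2 * H + 1 with hN
  set P : Finset ℕ := (Icc 1 H).filter (fun p : ℕ => p.Prime ∧ E ≤ p) with hP
  set W : ℕ → ℝ := fun a => ∑ h ∈ Icc 1 ⌊L ^ B⌋₊, ∑ p ∈ P.filter (fun p => a % p ∈ Rd G j d h p), 1 / (p : ℝ) with hW
  have hPp : ∀ p ∈ P, p.Prime ∧ E / 2 < p ∧ p ≤ N := by
    intro p hp
    rw [hP, mem_filter, mem_Icc] at hp
    refine ⟨hp.2.1, by linarith [hp.2.2], by omega⟩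
  have hWsum : ∑ a ∈ Icc 1 N, W a ≤ L ^ B * (8 * j * N / E) := by
    rw [hW, sum_comm]
    have h1 : ∀ h ∈ Icc 1 ⌊L ^ B⌋₊, ∑ a ∈ Icc 1 N, ∑ p ∈ P.filter (fun p => a % p ∈ Rd G j d h p), 1 / (p : ℝ) ≤
        8 * j * N / E := by
      intro h _
      refine (first j N P (Rd G j d h) (E / 2) (by linarith) hPp (card_Rd hj hGd hGc h)).trans (le_of_eq ?_)
      field_simp
      ring
    refine (sum_le_sum h1).trans ?_
    rw [sum_const, nsmul_eq_mul, Nat.card_Icc, Nat.add_sub_cancel]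
    exact mul_le_mul_of_nonneg_right (Nat.floor_le (by positivity)) (by positivity)
  have hW0 : ∀ a, 0 ≤ W a := fun a => sum_nonneg fun _ _ => sum_nonneg fun _ _ => by positivity
  have hsub : (Icc 1 N).filter (fun a : ℕ => τ < ∑ p ∈ (Icc 1 H).filter (fun p : ℕ => p.Prime ∧
      E ≤ p ∧ ∃ h : ℕ, 1 ≤ h ∧ (h : ℝ) ≤ L ^ B ∧ CF (fn (C (a : ℤ) + G)) h p), (1 : ℝ) / p) ⊆
      (Icc 1 N).filter (fun a => τ / 2 < W a) := by
    intro a ha
    rw [mem_filter] at ha ⊢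
    refine ⟨ha.1, ?_⟩
    have e1 : ∑ p ∈ P.filter (fun p => p ∣ d), (1 : ℝ) / p ≤ τ / 2 := by
      have h1 : ∏ p ∈ P.filter (fun p => p ∣ d), p ∣ d := Finset.prod_primes_dvd d
        (fun p hp => (hPp p (mem_filter.1 hp).1).1.prime) (fun p hp => (mem_filter.1 hp).2)
      have h2 : 2 ^ (P.filter (fun p => p ∣ d)).card ≤ ∏ p ∈ P.filter (fun p => p ∣ d), p := by
        rw [← prod_const]
        exact prod_le_prod' fun p hp => (hPp p (mem_filter.1 hp).1).1.two_le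
      have h3 : (2 : ℝ) ^ (P.filter (fun p => p ∣ d)).card ≤ H := by
        have h4 := (h2.trans (Nat.le_of_dvd hd1.1 h1)).trans hd1.2
        exact_mod_cast h4
      have h4 := Real.log_le_log (by positivity) h3
      rw [Real.log_pow] at h4
      have h5 : ((P.filter (fun p => p ∣ d)).card : ℝ) ≤ 2 * L := by
        have := Real.log_two_gt_d9
        nlinarith [(Nat.cast_nonneg (P.filter (fun p => p ∣ d)).card : (0 : ℝ) ≤ _)]
      calc ∑ p ∈ P.filter (fun p => p ∣ d), (1 : ℝ) / p ≤ ∑ _p ∈ P.filter (fun p => p ∣ d), 1 / E := by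
            apply sum_le_sum
            intro p hp
            rw [mem_filter, hP, mem_filter] at hp
            exact one_div_le_one_div_of_le hE0 hp.1.2.2
        _ = (P.filter (fun p => p ∣ d)).card * (1 / E) := by rw [sum_const, nsmul_eq_mul]
        _ ≤ 2 * L * (1 / E) := mul_le_mul_of_nonneg_right h5 (by positivity)
        _ ≤ τ / 2 := by
          rw [mul_one_div, div_le_iff₀ hE0]
          have h6 : τ * (4 / τ * L) < τ * E := mul_lt_mul_of_pos_left k4 hτ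
          rw [← mul_assoc, mul_div_cancel₀ _ hτ.ne'] at h6
          linarith
    have e2 : (Icc 1 H).filter (fun p : ℕ => p.Prime ∧
        E ≤ p ∧ ∃ h : ℕ, 1 ≤ h ∧ (h : ℝ) ≤ L ^ B ∧ CF (fn (C (a : ℤ) + G)) h p) ⊆
        P.filter (fun p => p ∣ d) ∪ (Icc 1 ⌊L ^ B⌋₊).biUnion (fun h => P.filter (fun p => a % p ∈ Rd G j d h p)) := by
      intro p hp
      rw [mem_filter] at hp
      obtain ⟨hp1, hpp, hpE, h, hh1, hh2, hh3⟩ := hp
      have hpP : p ∈ P := by rw [hP, mem_filter]; exact ⟨hp1, hpp, hpE⟩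
      rw [mem_union]
      by_cases g2 : p ∣ d
      · left; exact mem_filter.2 ⟨hpP, g2⟩
      · right
        rw [mem_biUnion]
        refine ⟨h, mem_Icc.2 ⟨hh1, Nat.le_floor hh2⟩, mem_filter.2 ⟨hpP, mem_Rd hpp ?_ ?_ g2 hh3⟩⟩
        · have : (j : ℝ) < p := lt_of_lt_of_le k6 hpE
          exact_mod_cast this
        · intro h4
          have h5 := Nat.le_of_dvd hh1 h4
          have h6 : (p : ℝ) ≤ h := by exact_mod_cast h5
          linarith
    have e3 : ∑ p ∈ (Icc 1 H).filter (fun p : ℕ => p.Prime ∧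
        E ≤ p ∧ ∃ h : ℕ, 1 ≤ h ∧ (h : ℝ) ≤ L ^ B ∧ CF (fn (C (a : ℤ) + G)) h p), (1 : ℝ) / p ≤
        ∑ p ∈ P.filter (fun p => p ∣ d), (1 : ℝ) / p + W a := by
      refine (sum_le_sum_of_subset_of_nonneg e2 fun _ _ _ => by positivity).trans ?_
      rw [hW]
      have u1 : ∀ S T : Finset ℕ, ∑ p ∈ S ∪ T, (1 : ℝ) / p ≤ ∑ p ∈ S, (1 : ℝ) / p + ∑ p ∈ T, (1 : ℝ) / p := by
        intro S T
        rw [← sum_union_inter]
        exact le_add_of_nonneg_right (sum_nonneg fun _ _ => by positivity)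
      refine (u1 _ _).trans (add_le_add le_rfl ?_)
      exact sum_biUnion_le' _ _ _ fun _ => by positivity
    linarith [ha.2]
  have hmark : (((Icc 1 N).filter (fun a => τ / 2 < W a)).card : ℝ) * (τ / 2) ≤ L ^ B * (8 * j * N / E) := by
    calc (((Icc 1 N).filter (fun a => τ / 2 < W a)).card : ℝ) * (τ / 2) =
          ∑ _a ∈ (Icc 1 N).filter (fun a => τ / 2 < W a), τ / 2 := by rw [sum_const, nsmul_eq_mul]
      _ ≤ ∑ a ∈ (Icc 1 N).filter (fun a => τ / 2 < W a), W a := sum_le_sum fun a ha => (mem_filter.1 ha).2.le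
      _ ≤ ∑ a ∈ Icc 1 N, W a := sum_le_sum_of_subset_of_nonneg (filter_subset _ _) fun a _ _ => hW0 a
      _ ≤ _ := hWsum
  have hle : (((Icc 1 N).filter (fun a => τ / 2 < W a)).card : ℝ) ≤ N / L ^ (A + 1) := by
    rw [← le_div_iff₀ (by positivity)] at hmark
    refine hmark.trans ?_
    rw [div_div_eq_mul_div, le_div_iff₀ (by positivity)]
    have h1 : 16 * j / τ * L ^ (A + B + 1) ≤ E := k5.le
    have h2 : L ^ B * (8 * j * N / E) * 2 / τ * L ^ (A + 1) = N * ((16 * j / τ * L ^ (A + B + 1)) / E) := by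
      rw [show A + B + 1 = B + (A + 1) by ring, pow_add]
      field_simp
      ring
    rw [h2]
    have h3 : (16 * j / τ * L ^ (A + B + 1)) / E ≤ 1 := (div_le_one hE0).2 h1
    calc (N : ℝ) * ((16 * j / τ * L ^ (A + B + 1)) / E) ≤ N * 1 := mul_le_mul_of_nonneg_left h3 (Nat.cast_nonneg _)
      _ = N := mul_one _
  refine le_trans ?_ hle
  exact_mod_cast card_le_card hsub

end Pool.Agent.U497.SP
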