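import Pool.Agent.U497.SP.Box
import Pool.Agent.Helper256.KM.E1

/-!
# Almost all polynomials: the sieve product is at most the truncated singular series over the logarithm (helper497)
-/

set_option autoImplicit false

namespace Pool.Agent.U497.SP

open Finset Polynomial Filter Topology

open Pool.Agent.Y677.RSZ (rt V)
open Pool.Agent.TH423.SH (PS)
open Pool.Agent.K3h89.SZ.EXC (sum_dvd sum_sq)
open Pool.Agent.H300R2.BH (rho SS FF)
open Pool.Agent.H300R2.FB (FP Rr bx)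
open Pool.Agent.TH892 (pol box sum_box card_box)

/-- the primes of the second moment -/
def Pz (z y d : ℕ) : Finset ℕ := (Ioc z y).filter (fun p => p.Prime ∧ ¬ p ∣ d)

lemma rho_le_p (F : ℤ[X]) (p : ℕ) : rho F p ≤ p := by
  unfold rho
  exact (card_filter_le _ _).trans (by rw [card_range])

lemma fac_bd (F : ℤ[X]) {p : ℕ} (hp : p.Prime) : 0 ≤ 1 - (rho F p : ℝ) / p ∧ 1 - (rho F p : ℝ) / p ≤ 1 := by
  have hp0 : (0 : ℝ) < p := by exact_mod_cast hp.pos
  have h1 : (rho F p : ℝ) ≤ p := by exact_mod_cast rho_le_p F p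
  constructor
  · rw [sub_nonneg, div_le_one hp0]; exact h1
  · have : 0 ≤ (rho F p : ℝ) / p := by positivity
    linarith

lemma V_mono (F : ℤ[X]) {y K : ℕ} (h : y ≤ K) : V (fn F) 1 K ≤ V (fn F) 1 y := by
  unfold V PS
  simp only [rt_fn]
  have hsub : (Icc 1 y).filter (fun p => p.Prime ∧ ¬ p ∣ 1) ⊆ (Icc 1 K).filter (fun p => p.Prime ∧ ¬ p ∣ 1) :=
    filter_subset_filter _ (Icc_subset_Icc_right h)
  rw [← prod_sdiff hsub]
  have h1 : ∏ p ∈ (Icc 1 K).filter (fun p => p.Prime ∧ ¬ p ∣ 1) \ (Icc 1 y).filter (fun p => p.Prime ∧ ¬ p ∣ 1),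
      (1 - (rho F p : ℝ) / p) ≤ 1 := by
    apply prod_le_one
    · intro p hp
      exact (fac_bd F (mem_filter.1 (Finset.mem_sdiff.1 hp).1).2.1).1
    · intro p hp
      exact (fac_bd F (mem_filter.1 (Finset.mem_sdiff.1 hp).1).2.1).2
  have h2 : 0 ≤ ∏ p ∈ (Icc 1 y).filter (fun p => p.Prime ∧ ¬ p ∣ 1), (1 - (rho F p : ℝ) / p) :=
    prod_nonneg fun p hp => (fac_bd F (mem_filter.1 hp).2.1).1
  calc _ ≤ 1 * ∏ p ∈ (Icc 1 y).filter (fun p => p.Prime ∧ ¬ p ∣ 1), (1 - (rho F p : ℝ) / p) :=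
        mul_le_mul_of_nonneg_right h1 h2
    _ = _ := one_mul _

lemma SS_nonneg (F : ℤ[X]) (z : ℕ) : 0 ≤ SS z F := by
  unfold SS
  apply prod_nonneg
  intro p hp
  have hpp := (mem_filter.1 hp).2
  have h2 : (2 : ℝ) ≤ p := by exact_mod_cast hpp.two_le
  apply div_nonneg (fac_bd F hpp).1
  rw [sub_nonneg, div_le_one (by linarith)]
  linarith

/-- the sieve product -/
lemma V_bound {C : ℝ} (hC : ∀ y : ℝ, 2 ≤ y →
    Real.log (Real.log y) - C ≤ ∑ p ∈ (Finset.Icc 1 ⌊y⌋₊).filter Nat.Prime, (1 : ℝ) / p) (F : ℤ[X]) {z y d : ℕ}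
    (hzy : z ≤ y) (hy : 2 ≤ y) (h1 : -1 ≤ ∑ p ∈ Pz z y d, ((rho F p : ℝ) - 1) / p)
    (h2 : ∑ p ∈ (Ioc z y).filter (fun p => p.Prime ∧ p ∣ d), (1 : ℝ) / p ≤ 1) :
    V (fn F) 1 y ≤ Real.exp (C + 2) * SS z F / Real.log y := by
  have hyR : (2 : ℝ) ≤ y := by exact_mod_cast hy
  have hlog : 0 < Real.log (y : ℝ) := Real.log_pos (by linarith)
  have hPS : PS 1 y = (Icc 1 y).filter Nat.Prime := by
    unfold PS
    apply filter_congr
    intro p _
    constructor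
    · exact fun h => h.1
    · intro h
      exact ⟨h, fun h3 => h.one_lt.ne' (Nat.dvd_one.1 h3)⟩
  have hV : V (fn F) 1 y = ∏ p ∈ (Icc 1 y).filter Nat.Prime, (1 - (rho F p : ℝ) / p) := by
    unfold V
    rw [hPS]
    rfl
  have hsplit : (Icc 1 y).filter Nat.Prime = (Icc 1 z).filter Nat.Prime ∪ (Ioc z y).filter Nat.Prime := by
    ext p
    simp only [mem_union, mem_filter, mem_Icc, mem_Ioc]
    constructor
    · rintro ⟨⟨a, b⟩, c⟩
      by_cases h : p ≤ z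
      · exact Or.inl ⟨⟨a, h⟩, c⟩
      · exact Or.inr ⟨⟨by omega, b⟩, c⟩
    · rintro (⟨⟨a, b⟩, c⟩ | ⟨⟨a, b⟩, c⟩)
      · exact ⟨⟨a, by omega⟩, c⟩
      · exact ⟨⟨c.one_lt.le, b⟩, c⟩
  have hdisj : Disjoint ((Icc 1 z).filter Nat.Prime) ((Ioc z y).filter Nat.Prime) := by
    rw [disjoint_left]
    intro p hp hq
    rw [mem_filter, mem_Icc] at hp
    rw [mem_filter, mem_Ioc] at hq
    omega
  have hsplit2 : (Ioc z y).filter Nat.Prime = Pz z y d ∪ (Ioc z y).filter (fun p => p.Prime ∧ p ∣ d) := by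
    ext p
    simp only [Pz, mem_union, mem_filter]
    tauto
  have hdisj2 : Disjoint (Pz z y d) ((Ioc z y).filter (fun p => p.Prime ∧ p ∣ d)) := by
    rw [disjoint_left]
    intro p hp hq
    rw [Pz, mem_filter] at hp
    rw [mem_filter] at hq
    exact hp.2.2 hq.2.2
  -- the small primes
  have hA : ∏ p ∈ (Icc 1 z).filter Nat.Prime, (1 - (rho F p : ℝ) / p) ≤
      SS z F * Real.exp (-∑ p ∈ (Icc 1 z).filter Nat.Prime, (1 : ℝ) / p) := by
    have e1 : ∏ p ∈ (Icc 1 z).filter Nat.Prime, (1 - (rho F p : ℝ) / p) =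
        SS z F * ∏ p ∈ (Icc 1 z).filter Nat.Prime, (1 - 1 / (p : ℝ)) := by
      unfold SS
      rw [← prod_mul_distrib]
      refine prod_congr rfl fun p hp => ?_
      have h2 : (2 : ℝ) ≤ p := by exact_mod_cast (mem_filter.1 hp).2.two_le
      have h3 : 1 - 1 / (p : ℝ) ≠ 0 := by
        have : 1 / (p : ℝ) ≤ 1 / 2 := one_div_le_one_div_of_le (by norm_num) h2
        linarith
      rw [div_mul_cancel₀ _ h3]
    rw [e1, ← sum_neg_distrib, Real.exp_sum]
    apply mul_le_mul_of_nonneg_left _ (SS_nonneg F z)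
    apply Finset.prod_le_prod
    · intro p hp
      have h2 : (2 : ℝ) ≤ p := by exact_mod_cast (mem_filter.1 hp).2.two_le
      have : 1 / (p : ℝ) ≤ 1 / 2 := one_div_le_one_div_of_le (by norm_num) h2
      linarith
    · intro p _
      have := Real.add_one_le_exp (-(1 / (p : ℝ)))
      linarith
  -- the large primes
  have hB : ∏ p ∈ (Ioc z y).filter Nat.Prime, (1 - (rho F p : ℝ) / p) ≤
      Real.exp (1 - ∑ p ∈ Pz z y d, (1 : ℝ) / p) := by
    rw [hsplit2, prod_union hdisj2]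
    have c1 : ∏ p ∈ (Ioc z y).filter (fun p => p.Prime ∧ p ∣ d), (1 - (rho F p : ℝ) / p) ≤ 1 :=
      prod_le_one (fun p hp => (fac_bd F (mem_filter.1 hp).2.1).1) (fun p hp => (fac_bd F (mem_filter.1 hp).2.1).2)
    have c0 : ∀ p ∈ Pz z y d, p.Prime := fun p hp => (mem_filter.1 hp).2.1
    have c2 : 0 ≤ ∏ p ∈ Pz z y d, (1 - (rho F p : ℝ) / p) :=
      prod_nonneg fun p hp => (fac_bd F (c0 p hp)).1
    have c3 : ∏ p ∈ Pz z y d, (1 - (rho F p : ℝ) / p) ≤ Real.exp (∑ p ∈ Pz z y d, -((rho F p : ℝ) / p)) := by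
      rw [Real.exp_sum]
      apply Finset.prod_le_prod
      · exact fun p hp => (fac_bd F (c0 p hp)).1
      · intro p _
        have := Real.add_one_le_exp (-((rho F p : ℝ) / p))
        linarith
    have c4 : ∑ p ∈ Pz z y d, -((rho F p : ℝ) / p) ≤ 1 - ∑ p ∈ Pz z y d, (1 : ℝ) / p := by
      have e1 : ∑ p ∈ Pz z y d, ((rho F p : ℝ) - 1) / p =
          ∑ p ∈ Pz z y d, (rho F p : ℝ) / p - ∑ p ∈ Pz z y d, (1 : ℝ) / p := by
        rw [← sum_sub_distrib]
        refine sum_congr rfl fun p _ => ?_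
        rw [sub_div]
      rw [sum_neg_distrib]
      linarith
    calc _ ≤ (∏ p ∈ Pz z y d, (1 - (rho F p : ℝ) / p)) * 1 := mul_le_mul_of_nonneg_left c1 c2
      _ = ∏ p ∈ Pz z y d, (1 - (rho F p : ℝ) / p) := mul_one _
      _ ≤ _ := c3.trans (Real.exp_le_exp.2 c4)
  have hB0 : 0 ≤ ∏ p ∈ (Ioc z y).filter Nat.Prime, (1 - (rho F p : ℝ) / p) :=
    prod_nonneg fun p hp => (fac_bd F (mem_filter.1 hp).2).1
  have hsum : Real.log (Real.log (y : ℝ)) - C ≤ ∑ p ∈ (Icc 1 z).filter Nat.Prime, (1 : ℝ) / p +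
      (∑ p ∈ Pz z y d, (1 : ℝ) / p + 1) := by
    have h3 := hC y hyR
    rw [Nat.floor_natCast, hsplit, sum_union hdisj] at h3
    have h4 : ∑ p ∈ (Ioc z y).filter Nat.Prime, (1 : ℝ) / p = ∑ p ∈ Pz z y d, (1 : ℝ) / p +
        ∑ p ∈ (Ioc z y).filter (fun p => p.Prime ∧ p ∣ d), (1 : ℝ) / p := by
      rw [hsplit2, sum_union hdisj2]
    rw [h4] at h3
    linarith
  rw [hV, hsplit, prod_union hdisj]
  calc _ ≤ (SS z F * Real.exp (-∑ p ∈ (Icc 1 z).filter Nat.Prime, (1 : ℝ) / p)) *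
        Real.exp (1 - ∑ p ∈ Pz z y d, (1 : ℝ) / p) :=
        mul_le_mul hA hB hB0 (mul_nonneg (SS_nonneg F z) (Real.exp_pos _).le)
    _ = SS z F * Real.exp (-(∑ p ∈ (Icc 1 z).filter Nat.Prime, (1 : ℝ) / p + (∑ p ∈ Pz z y d, (1 : ℝ) / p + 1)) + 2) := by
        rw [mul_assoc, ← Real.exp_add]
        congr 2
        ring
    _ ≤ SS z F * Real.exp (-(Real.log (Real.log (y : ℝ)) - C) + 2) := by
        apply mul_le_mul_of_nonneg_left _ (SS_nonneg F z)
        apply Real.exp_le_exp.2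
        linarith
    _ = _ := by
        rw [show -(Real.log (Real.log (y : ℝ)) - C) + 2 = (C + 2) - Real.log (Real.log (y : ℝ)) by ring,
          Real.exp_sub, Real.exp_log hlog]
        ring

/-- the second moment for the polynomials `a + G` -/
lemma rho_var {G : ℤ[X]} {j d : ℕ} (hj : 1 ≤ j) (hG : G.natDegree ≤ j) (hc : G.coeff j = d) (z y : ℕ) (hjz : j ≤ z)
    (hz : 2 ≤ z) (N : ℕ) :
    (((Icc 1 N).filter (fun a : ℕ => ∑ p ∈ Pz z y d, ((rho (C (a : ℤ) + G) p : ℝ) - 1) / p < -1)).card : ℝ) ≤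
      N * (j : ℝ) ^ 2 * (2 / z) + (j : ℝ) ^ 2 * (y : ℝ) ^ 2 := by
  classical
  set P := Pz z y d with hP
  have hPp : ∀ p ∈ P, p.Prime ∧ z < p ∧ p ≤ y ∧ ¬ p ∣ d := by
    intro p hp
    rw [hP, Pz, mem_filter, mem_Ioc] at hp
    exact ⟨hp.2.1, hp.1.1, hp.1.2, hp.2.2⟩
  set f : ℕ → ℕ → ℝ := fun p n => (rho (C ((n + 1 : ℕ) : ℤ) + G) p : ℝ) - 1 with hf
  have hj1 : (1 : ℝ) ≤ j := by exact_mod_cast hj
  have h1 := var P f j (Nat.cast_nonneg _) (fun p hp => (hPp p hp).1) (by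
      intro p _ n
      simp only [hf]
      rw [show p + n + 1 = p + (n + 1) by ring, rho_per]) (by
      intro p hp
      simp only [hf]
      rw [sum_sub_distrib, sum_const, card_range, nsmul_eq_mul, mul_one]
      have e1 := sum_range_succ (fun a : ℕ => (rho (C (a : ℤ) + G) p : ℝ)) p
      have e2 := sum_range_succ' (fun a : ℕ => (rho (C (a : ℤ) + G) p : ℝ)) p
      have e3 : (∑ a ∈ range p, (rho (C (a : ℤ) + G) p : ℝ)) = p := by exact_mod_cast rho_sum G p (hPp p hp).1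
      have e4 : rho (C ((p : ℕ) : ℤ) + G) p = rho (C ((0 : ℕ) : ℤ) + G) p := by
        have := rho_per G p 0
        rwa [add_zero] at this
      rw [e1] at e2
      rw [e4, e3] at e2
      linarith) (by
      intro p hp n
      simp only [hf]
      have h2 : rho (C ((n + 1 : ℕ) : ℤ) + G) p ≤ j := by
        apply rho_le (hPp p hp).1 hj hG
        · have := (hPp p hp).2.1
          omega
        · rw [hc]
          intro h3
          exact (hPp p hp).2.2.2 (Int.natCast_dvd_natCast.1 h3)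
      have h3 : (rho (C ((n + 1 : ℕ) : ℤ) + G) p : ℝ) ≤ j := by exact_mod_cast h2
      have h4 : (0 : ℝ) ≤ rho (C ((n + 1 : ℕ) : ℤ) + G) p := Nat.cast_nonneg _
      rw [abs_le]
      constructor <;> linarith) N
  have h2 : (((Icc 1 N).filter (fun a : ℕ => ∑ p ∈ P, ((rho (C (a : ℤ) + G) p : ℝ) - 1) / p < -1)).card : ℝ) ≤
      ∑ n ∈ range N, (∑ p ∈ P, f p n / p) ^ 2 := by
    rw [card_filter]
    push_cast
    have e1 : ∑ a ∈ Icc 1 N, (if ∑ p ∈ P, ((rho (C (a : ℤ) + G) p : ℝ) - 1) / p < -1 then (1 : ℝ) else 0) =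
        ∑ n ∈ range N, (if ∑ p ∈ P, f p n / p < -1 then (1 : ℝ) else 0) := by
      rw [show Icc 1 N = Ico 1 (N + 1) by (ext x; simp only [mem_Icc, mem_Ico]; omega), sum_Ico_eq_sum_range]
      apply sum_congr (by rw [Nat.add_sub_cancel])
      intro n _
      simp only [hf]
      rw [add_comm 1 n]
    rw [e1]
    apply sum_le_sum
    intro n _
    split_ifs with h3
    · nlinarith
    · positivity
  have h3 : ∑ p ∈ P, 1 / (p : ℝ) ^ 2 ≤ (2 : ℝ) / z :=
    sum_sq (by exact_mod_cast hz) P y fun p hp => ⟨by exact_mod_cast (hPp p hp).2.1, (hPp p hp).2.2.1⟩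
  have h4 : (P.card : ℝ) ≤ y := by
    have : P.card ≤ y := by
      calc P.card ≤ (Icc 1 y).card := by
            apply card_le_card
            intro p hp
            rw [mem_Icc]
            exact ⟨(hPp p hp).1.one_lt.le, (hPp p hp).2.2.1⟩
        _ = y := by rw [Nat.card_Icc, Nat.add_sub_cancel]
    exact_mod_cast this
  refine h2.trans (h1.trans ?_)
  apply add_le_add
  · exact mul_le_mul_of_nonneg_left h3 (by positivity)
  · apply mul_le_mul_of_nonneg_left _ (by positivity)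
    exact pow_le_pow_left₀ (Nat.cast_nonneg _) h4 2

open Classical in
/-- **the sieve product for almost all polynomials** -/
theorem vbd (j : ℕ) (hj : 1 ≤ j) (A E : ℕ) (hE : A + 2 ≤ E) (τ : ℝ) (hτ : 0 < τ) (hτ1 : τ ≤ 1 / 4) :
    ∃ K : ℝ, 0 < K ∧ ∃ H₀ : ℕ, ∀ H : ℕ, H₀ ≤ H →
    (((box j H).filter (fun c => K * SS ⌊Real.log H ^ E⌋₊ (pol c) / Real.log H <
      V (fn (pol c)) 1 ⌊(H : ℝ) ^ τ⌋₊)).card : ℝ) ≤ ((box j H).card : ℝ) / Real.log H ^ A := by
  obtain ⟨C₀, hC0, hC⟩ := Pool.Agent.Helper256.KM.mertens_lower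
  have tc : Tendsto (fun H : ℕ => (H : ℝ)) atTop atTop := tendsto_natCast_atTop_atTop
  have tl : Tendsto (fun H : ℕ => Real.log (H : ℝ)) atTop atTop := Real.tendsto_log_atTop.comp tc
  have tp : Tendsto (fun H : ℕ => (H : ℝ) ^ (τ / 2)) atTop atTop := (tendsto_rpow_atTop (by positivity)).comp tc
  have hpoly : ∀ (n : ℕ) (c : ℝ) (s : ℝ), 0 < s → 0 < c → ∀ᶠ H : ℕ in atTop, c * Real.log (H : ℝ) ^ n ≤ (H : ℝ) ^ s := by
    intro n c s hs hc
    filter_upwards [Pool.Agent.H442R2.EHI.evt_log_pow (n + 1) s hs, Pool.Agent.H442R2.EHI.evt_log_ge c] with H h1 h2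
    refine le_trans ?_ h1
    rw [pow_succ, mul_comm]
    exact mul_le_mul_of_nonneg_left h2 (pow_nonneg (by linarith) _)
  obtain ⟨H₀, hH₀⟩ := eventually_atTop.1 ((tl.eventually_ge_atTop ((16 * (j : ℝ) ^ 2) + 2)).and
    ((tl.eventually_ge_atTop ((j : ℝ) + 4)).and ((tp.eventually_ge_atTop 4).and
    ((hpoly E 2 τ hτ (by norm_num)).and ((hpoly (A + 1) (2 * (j : ℝ) ^ 2) (1 / 2) (by norm_num) (by positivity)).and
    (tc.eventually_ge_atTop 1))))))
  refine ⟨2 / τ * Real.exp (C₀ + 2), by positivity, H₀, fun H hH => ?_⟩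
  obtain ⟨k1, k2, k3, k4, k5, k6⟩ := hH₀ H hH
  set L := Real.log (H : ℝ) with hL
  have hj1 : (1 : ℝ) ≤ j := by exact_mod_cast hj
  have hL4 : 4 ≤ L := by linarith
  have hL0 : 0 < L := by linarith
  have hL1 : 1 ≤ L := by linarith
  have hH0 : (0 : ℝ) < H := by linarith
  set z : ℕ := ⌊L ^ E⌋₊ with hz
  set y : ℕ := ⌊(H : ℝ) ^ τ⌋₊ with hy
  have hzL : L ≤ L ^ E := le_self_pow₀ hL1 (by omega)
  have hz1 : L ^ E / 2 ≤ z := by
    have := Nat.lt_floor_add_one (L ^ E)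
    rw [← hz] at this
    linarith
  have hz2 : 2 ≤ z := by
    have : (2 : ℝ) ≤ z := by linarith
    exact_mod_cast this
  have hjz : j ≤ z := by
    have h1 : (j : ℝ) ≤ L ^ E := by linarith
    exact Nat.le_floor h1
  have hzu : (z : ℝ) ≤ L ^ E := Nat.floor_le (by positivity)
  have hyu : (y : ℝ) ≤ (H : ℝ) ^ τ := Nat.floor_le (by positivity)
  have hHτ : (H : ℝ) ^ τ = (H : ℝ) ^ (τ / 2) * (H : ℝ) ^ (τ / 2) := by
    rw [← Real.rpow_add hH0]; congr 1; ring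
  have hyl : (H : ℝ) ^ (τ / 2) ≤ y := by
    have h1 := Nat.lt_floor_add_one ((H : ℝ) ^ τ)
    rw [← hy] at h1
    rw [hHτ] at h1
    nlinarith
  have hy2 : 2 ≤ y := by
    have : (2 : ℝ) ≤ y := by linarith
    exact_mod_cast this
  have hzy : z ≤ y := by
    apply Nat.floor_mono
    have : 0 ≤ L ^ E := by positivity
    linarith
  have hlogy : τ / 2 * L ≤ Real.log y := by
    have h1 := Real.log_le_log (by positivity) hyl
    rwa [Real.log_rpow hH0] at h1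
  have hlogy0 : 0 < Real.log (y : ℝ) := lt_of_lt_of_le (by positivity) hlogy
  refine box_count2 hj H A (fun F => 2 / τ * Real.exp (C₀ + 2) * SS z F / L < V (fn F) 1 y) (fun _ => False)
    (by linarith) (by rw [filter_false, card_empty, Nat.cast_zero]; positivity) ?_
  intro r _ d hd1 _
  rw [mem_Ioc] at hd1
  set G := GP j H r d with hG
  have hGd : G.natDegree ≤ j := GP_natDegree hj H r d
  have hGc : G.coeff j = d := GP_coeff hj H r d
  set N : ℕ := 2 * H + 1 with hN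
  -- the primes which divide `d`
  have hdiv : ∑ p ∈ (Ioc z y).filter (fun p => p.Prime ∧ p ∣ d), (1 : ℝ) / p ≤ 1 := by
    set Q := (Ioc z y).filter (fun p => p.Prime ∧ p ∣ d) with hQ
    have hQp : ∀ p ∈ Q, p.Prime ∧ p ∣ d ∧ z < p := by
      intro p hp
      rw [hQ, mem_filter, mem_Ioc] at hp
      exact ⟨hp.2.1, hp.2.2, hp.1.1⟩
    have h1 : ∏ p ∈ Q, p ∣ d := Finset.prod_primes_dvd d (fun p hp => (hQp p hp).1.prime) (fun p hp => (hQp p hp).2.1)
    have h2 : 4 ^ Q.card ≤ ∏ p ∈ Q, p := by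
      rw [← prod_const]
      refine prod_le_prod' fun p hp => ?_
      have h3 : (4 : ℝ) ≤ p := by
        have h4 : (z : ℝ) + 1 ≤ p := by exact_mod_cast (hQp p hp).2.2
        have h5 : (4 : ℝ) ^ 2 ≤ L ^ E := by
          calc (4 : ℝ) ^ 2 ≤ L ^ 2 := pow_le_pow_left₀ (by norm_num) hL4 2
            _ ≤ L ^ E := pow_le_pow_right₀ hL1 (by omega)
        linarith
      exact_mod_cast h3
    have h3 : (4 : ℝ) ^ Q.card ≤ H := by
      have h4 := (h2.trans (Nat.le_of_dvd hd1.1 h1)).trans hd1.2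
      exact_mod_cast h4
    have h4 := Real.log_le_log (by positivity) h3
    rw [Real.log_pow] at h4
    have h5 : (Q.card : ℝ) ≤ L := by
      have h6 : (1 : ℝ) ≤ Real.log 4 := by
        rw [show (4 : ℝ) = 2 ^ 2 by norm_num, Real.log_pow]
        have := Real.log_two_gt_d9
        push_cast
        linarith
      nlinarith [(Nat.cast_nonneg Q.card : (0 : ℝ) ≤ _)]
    have hz0 : (0 : ℝ) < z := by exact_mod_cast (by omega : 0 < z)
    calc ∑ p ∈ Q, (1 : ℝ) / p ≤ ∑ _p ∈ Q, 1 / (z : ℝ) := by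
          apply sum_le_sum
          intro p hp
          apply one_div_le_one_div_of_le hz0
          exact_mod_cast (hQp p hp).2.2.le
      _ = Q.card * (1 / (z : ℝ)) := by rw [sum_const, nsmul_eq_mul]
      _ ≤ L * (1 / (z : ℝ)) := mul_le_mul_of_nonneg_right h5 (by positivity)
      _ ≤ 1 := by
        rw [mul_one_div, div_le_one hz0]
        have h6 : L * 2 ≤ L ^ E := by
          calc L * 2 ≤ L * L := by nlinarith
            _ = L ^ 2 := by ring
            _ ≤ L ^ E := pow_le_pow_right₀ hL1 (by omega)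
        linarith
  have hsub : (Icc 1 N).filter (fun a : ℕ => 2 / τ * Real.exp (C₀ + 2) * SS z (C (a : ℤ) + G) / L < V (fn (C (a : ℤ) + G)) 1 y) ⊆
      (Icc 1 N).filter (fun a : ℕ => ∑ p ∈ Pz z y d, ((rho (C (a : ℤ) + G) p : ℝ) - 1) / p < -1) := by
    intro a ha
    rw [mem_filter] at ha ⊢
    refine ⟨ha.1, ?_⟩
    by_contra hcon
    have h1 := V_bound hC (C (a : ℤ) + G) hzy hy2 (not_lt.1 hcon) hdiv
    have h2 : Real.exp (C₀ + 2) * SS z (C (a : ℤ) + G) / Real.log y ≤ 2 / τ * Real.exp (C₀ + 2) * SS z (C (a : ℤ) + G) / L := by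
      have h3 : 0 ≤ Real.exp (C₀ + 2) * SS z (C (a : ℤ) + G) := mul_nonneg (Real.exp_pos _).le (SS_nonneg _ _)
      calc Real.exp (C₀ + 2) * SS z (C (a : ℤ) + G) / Real.log y ≤ Real.exp (C₀ + 2) * SS z (C (a : ℤ) + G) / (τ / 2 * L) :=
            div_le_div_of_nonneg_left h3 (by positivity) hlogy
        _ = _ := by field_simp
    linarith [ha.2]
  have hmain := rho_var hj hGd hGc z y hjz hz2 N
  have hNr : ((N : ℕ) : ℝ) = 2 * H + 1 := by rw [hN]; push_cast; ring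
  have hz0 : (0 : ℝ) < z := by exact_mod_cast (by omega : 0 < z)
  have hfin : (N : ℝ) * (j : ℝ) ^ 2 * (2 / z) + (j : ℝ) ^ 2 * (y : ℝ) ^ 2 ≤ N / L ^ (A + 1) := by
    have g1 : (N : ℝ) * (j : ℝ) ^ 2 * (2 / z) ≤ N / L ^ (A + 1) / 4 := by
      have h1 : (2 : ℝ) / z ≤ 4 / L ^ E := by
        rw [div_le_div_iff₀ hz0 (by positivity)]
        linarith
      have h2 : 16 * (j : ℝ) ^ 2 * L ^ (A + 1) ≤ L ^ E := by
        calc 16 * (j : ℝ) ^ 2 * L ^ (A + 1) ≤ L * L ^ (A + 1) :=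
              mul_le_mul_of_nonneg_right (by linarith) (by positivity)
          _ = L ^ (A + 2) := by ring
          _ ≤ L ^ E := pow_le_pow_right₀ hL1 hE
      calc (N : ℝ) * (j : ℝ) ^ 2 * (2 / z) ≤ (N : ℝ) * (j : ℝ) ^ 2 * (4 / L ^ E) :=
            mul_le_mul_of_nonneg_left h1 (by positivity)
        _ = N * (16 * (j : ℝ) ^ 2) / L ^ E / 4 := by ring
        _ ≤ N / L ^ (A + 1) / 4 := by
          apply div_le_div_of_nonneg_right _ (by norm_num)
          rw [div_le_div_iff₀ (by positivity) (by positivity)]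
          calc (N : ℝ) * (16 * (j : ℝ) ^ 2) * L ^ (A + 1) = N * (16 * (j : ℝ) ^ 2 * L ^ (A + 1)) := by ring
            _ ≤ N * L ^ E := mul_le_mul_of_nonneg_left h2 (Nat.cast_nonneg _)
    have g2 : (j : ℝ) ^ 2 * (y : ℝ) ^ 2 ≤ N / L ^ (A + 1) / 2 := by
      have h1 : (y : ℝ) ^ 2 ≤ (H : ℝ) ^ (1 / 2 : ℝ) := by
        calc (y : ℝ) ^ 2 ≤ ((H : ℝ) ^ τ) ^ 2 := pow_le_pow_left₀ (Nat.cast_nonneg _) hyu 2
          _ = (H : ℝ) ^ (2 * τ) := by
            rw [← Real.rpow_natCast, ← Real.rpow_mul hH0.le]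
            congr 1
            push_cast
            ring
          _ ≤ (H : ℝ) ^ (1 / 2 : ℝ) := Real.rpow_le_rpow_of_exponent_le k6 (by linarith)
      rw [div_div, le_div_iff₀ (by positivity)]
      have h2 : (H : ℝ) ^ (1 / 2 : ℝ) * (H : ℝ) ^ (1 / 2 : ℝ) = H := by
        rw [← Real.rpow_add hH0]; norm_num
      calc (j : ℝ) ^ 2 * (y : ℝ) ^ 2 * (L ^ (A + 1) * 2) ≤ (j : ℝ) ^ 2 * (H : ℝ) ^ (1 / 2 : ℝ) * (L ^ (A + 1) * 2) := by
            gcongr
        _ = (2 * (j : ℝ) ^ 2 * L ^ (A + 1)) * (H : ℝ) ^ (1 / 2 : ℝ) := by ring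
        _ ≤ (H : ℝ) ^ (1 / 2 : ℝ) * (H : ℝ) ^ (1 / 2 : ℝ) := mul_le_mul_of_nonneg_right k5 (by positivity)
        _ = H := h2
        _ ≤ N := by rw [hNr]; linarith
    have h3 : 0 ≤ (N : ℝ) / L ^ (A + 1) := by positivity
    linarith
  refine le_trans ?_ (hmain.trans hfin)
  exact_mod_cast card_le_card hsub

end Pool.Agent.U497.SP
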