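import Pool.Agent.U497.SP.One
import Pool.Agent.U497.SP.Med
import Pool.Agent.U497.SP.VB

/-!
# Szemerédi's theorem relative to the prime values of almost all polynomials (helper497)
-/

set_option autoImplicit false

namespace Pool.Agent.U497.SP

open Finset Polynomial Filter Topology

open Pool.Agent.Y677.RSZ (rt V)
open Pool.Agent.K3h89.SZ (SysP CF)
open Pool.Agent.H300R2.BH (rho SS SS_lower pv lF)
open Pool.Agent.H300R2.FB (FP Rr bx pa la SS_small abs_conv)
open Pool.Agent.TH892 (pol box sum_box card_box exc_box pol_eval pol_coeff pol_natDegree_le la_lower box_abs)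
open Pool.Agent.H442R2.EHI (evt_log_pow evt_log_ge)

/-- the `n ≤ K` for which `F(n)` is a prime -/
noncomputable def PV (F : ℤ[X]) (K : ℕ) : Finset ℕ := (Icc 1 K).filter (fun n : ℕ => (F.eval (n : ℤ)).toNat.Prime)

/-- large values at large arguments -/
lemma eval_big {j H : ℕ} (hj : 1 ≤ j) {c : Fin (j + 1) → ℤ} (hc : c ∈ box j H) {n : ℕ}
    (hn : ((j : ℤ) + 1) * H < n * c (Fin.last j)) : (H : ℤ) < (pol c).eval (n : ℤ) := by
  have hn1 : 1 ≤ n := by
    by_contra h0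
    have h1 : n = 0 := by omega
    rw [h1] at hn
    have : (0 : ℤ) ≤ ((j : ℤ) + 1) * H := by positivity
    simp at hn
    linarith
  rw [pol_eval, Fin.sum_univ_castSucc]
  have h4 : -((j : ℤ) * (H * (n : ℤ) ^ (j - 1))) ≤
      ∑ i : Fin j, c i.castSucc * (n : ℤ) ^ ((i.castSucc : Fin (j + 1)) : ℕ) := by
    have h5 : |∑ i : Fin j, c i.castSucc * (n : ℤ) ^ ((i.castSucc : Fin (j + 1)) : ℕ)| ≤
        (j : ℤ) * (H * (n : ℤ) ^ (j - 1)) := by
      refine (abs_sum_le_sum_abs _ _).trans ?_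
      calc _ ≤ ∑ _i : Fin j, (H * (n : ℤ) ^ (j - 1)) := by
            refine sum_le_sum fun i _ => ?_
            rw [abs_mul, abs_pow, Nat.abs_cast]
            have h1 := box_abs hc i.castSucc
            have h2 : (n : ℤ) ^ ((i.castSucc : Fin (j + 1)) : ℕ) ≤ (n : ℤ) ^ (j - 1) := by
              apply pow_le_pow_right₀ (by exact_mod_cast hn1)
              have := i.2
              simp only [Fin.val_castSucc]
              omega
            exact mul_le_mul h1 h2 (by positivity) (by positivity)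
        _ = _ := by rw [sum_const, card_univ, Fintype.card_fin, nsmul_eq_mul]
    exact (abs_le.mp h5).1
  rw [Fin.val_last]
  have h6 : (n : ℤ) ^ j = (n : ℤ) ^ (j - 1) * n := by
    rw [← pow_succ]; congr 1; omega
  have h7 : (1 : ℤ) ≤ (n : ℤ) ^ (j - 1) := one_le_pow₀ (by exact_mod_cast hn1)
  rw [h6]
  have h8 : (H : ℤ) < n * c (Fin.last j) - j * H := by linarith
  have h9 : (0 : ℤ) ≤ H := Int.natCast_nonneg H
  have h10 : n * c (Fin.last j) - j * H ≤ (n : ℤ) ^ (j - 1) * (n * c (Fin.last j) - j * H) := by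
    have : 0 ≤ n * c (Fin.last j) - j * H := by linarith
    nlinarith
  calc (H : ℤ) < n * c (Fin.last j) - j * H := h8
    _ ≤ (n : ℤ) ^ (j - 1) * (n * c (Fin.last j) - j * H) := h10
    _ = -((j : ℤ) * (H * (n : ℤ) ^ (j - 1))) + c (Fin.last j) * ((n : ℤ) ^ (j - 1) * n) := by ring
    _ ≤ _ := by linarith

open Classical in
/-- small leading coefficients -/
theorem small (j : ℕ) (hj : 1 ≤ j) (A : ℕ) : ∃ H₀ : ℕ, ∀ H : ℕ, H₀ ≤ H →
    (((box j H).filter (fun c => (((pol c).coeff j : ℤ) : ℝ) * Real.log H ^ (A + 2) ≤ H)).card : ℝ) ≤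
      ((box j H).card : ℝ) / Real.log H ^ A := by
  obtain ⟨H₁, h1⟩ := Pd_count (A + 1) 1 one_pos
  obtain ⟨H₂, h2⟩ := eventually_atTop.1 (evt_log_ge 2)
  refine ⟨max H₁ H₂, fun H hH => ?_⟩
  have k1 := h1 H ((le_max_left _ _).trans hH)
  have k2 := h2 H ((le_max_right _ _).trans hH)
  refine box_count2 hj H A (fun F => ((F.coeff j : ℤ) : ℝ) * Real.log H ^ (A + 2) ≤ H) (Pd (A + 1) 1 (H : ℝ)) k2 k1 ?_
  intro r _ d _ hnd
  unfold Pd at hnd
  rw [not_or, not_le] at hnd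
  rw [filter_false_of_mem, card_empty]
  · push_cast
    positivity
  · intro a _ h3
    rw [coeff_add, coeff_C, if_neg (by omega), zero_add, GP_coeff hj] at h3
    push_cast at h3
    exact absurd h3 (not_le.2 hnd.1)

open Classical in
/-- **main theorem** -/
theorem main (j : ℕ) (hj : 1 ≤ j) (k : ℕ) (hk : 2 ≤ k) (κ ε : ℝ) (hκ : 0 < κ) (hε : 0 < ε) (U : ℕ) :
    ∃ B H₀ : ℕ, ∀ H : ℕ, H₀ ≤ H → ∃ Bad : Finset (Fin (j + 1) → ℤ),
      (Bad.card : ℝ) ≤ ((box j H).card : ℝ) / Real.log H ^ U ∧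
      ∀ c ∈ box j H, c ∉ Bad → (∀ p : ℕ, p.Prime → rho (pol c) p ≠ p) →
      ∀ K : ℕ, (H : ℝ) ^ ε ≤ K → (K : ℝ) * Real.log H ^ B ≤ H →
        (K : ℝ) / Real.log H ^ 2 ≤ (PV (pol c) K).card ∧
        ∀ S ⊆ PV (pol c) K,
          (Set.ncard {x : ℕ | x ∈ S ∧ ¬ InP S k (Real.log H ^ B) x} : ℝ) ≤ κ * (PV (pol c) K).card := by
  set τ : ℝ := min ε (1 / 4) with hτd
  have hτ : 0 < τ := lt_min hε (by norm_num)
  have hτ1 : τ ≤ 1 / 4 := min_le_right _ _
  have hτε : τ ≤ ε := min_le_left _ _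
  set A : ℕ := U + 1 with hA
  set m : ℕ := ⌈1 / ε⌉₊ with hm
  set g : ℕ := 1 + m + j with hg
  obtain ⟨E1, hE1⟩ := exc_box j hj ε hε A
  set E : ℕ := max E1 (A + 2) + 1 with hE
  obtain ⟨B1, x1, hb⟩ := hE1 E (by omega)
  obtain ⟨Kv, hKv, x2, hV⟩ := vbd j hj A E (by omega) τ hτ hτ1
  obtain ⟨η, hη, Be, x3, heng⟩ := one k g (κ / (16 * (j + 2) * Kv)) hk (by positivity)
  obtain ⟨x4, hmed⟩ := med j hj Be A η hη
  obtain ⟨x5, hlar⟩ := lar j hj Be A ε (1 / (4 * (g + 1))) hε (by positivity)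
  obtain ⟨x6, hsm⟩ := small j hj A
  obtain ⟨x7, hSS⟩ := SS_small (E - 1)
  rw [show E - 1 + 1 = E by omega] at hSS
  obtain ⟨cS, hcS, hSSl⟩ := SS_lower j hj
  have tc : Tendsto (fun H : ℕ => (H : ℝ)) atTop atTop := tendsto_natCast_atTop_atTop
  have tl : Tendsto (fun H : ℕ => Real.log (H : ℝ)) atTop atTop := Real.tendsto_log_atTop.comp tc
  have tll : Tendsto (fun H : ℕ => Real.log (Real.log (H : ℝ))) atTop atTop := Real.tendsto_log_atTop.comp tl
  have tpe : Tendsto (fun H : ℕ => (H : ℝ) ^ ε) atTop atTop := (tendsto_rpow_atTop hε).comp tc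
  have hlogs : ∀ᶠ x : ℕ in atTop, (E * Real.log (Real.log x)) ^ (2 * j) * (8 * (j + 2)) ≤
      cS * Real.log x := by
    have h1 : (fun t : ℝ => Real.log t ^ (2 * j)) =o[atTop] fun t : ℝ => t :=
      Real.isLittleO_pow_log_id_atTop
    have h2 := h1.bound (show (0:ℝ) < cS / ((8 * (j + 2)) * (1 + E) ^ (2 * j)) by positivity)
    have h3 := (Real.tendsto_log_atTop.comp (tendsto_natCast_atTop_atTop (R := ℝ))).eventually h2
    filter_upwards [h3, evt_log_ge (Real.exp 1)] with x hx hx2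
    simp only [Function.comp] at hx
    have ht0 : 0 < Real.log x := lt_of_lt_of_le (Real.exp_pos 1) hx2
    have hl : 1 ≤ Real.log (Real.log x) := by
      rw [Real.le_log_iff_exp_le ht0]; exact hx2
    rw [Real.norm_of_nonneg (by positivity), Real.norm_of_nonneg ht0.le] at hx
    calc (E * Real.log (Real.log x)) ^ (2 * j) * (8 * (j + 2))
        ≤ ((1 + E) * Real.log (Real.log x)) ^ (2 * j) * (8 * (j + 2)) := by
          gcongr
          linarith
      _ = ((8 * (j + 2)) * (1 + E) ^ (2 * j)) * Real.log (Real.log x) ^ (2 * j) := by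
          rw [mul_pow]; ring
      _ ≤ ((8 * (j + 2)) * (1 + E) ^ (2 * j)) * (cS / ((8 * (j + 2)) * (1 + E) ^ (2 * j)) *
          Real.log x) := by gcongr
      _ = cS * Real.log x := by field_simp
  have hev : ∀ᶠ H : ℕ in atTop, 8 ≤ Real.log H ∧
      (2 / κ + 2) * ((j + 1) * Real.log H ^ (A + 2) + 1) * Real.log H ^ 2 ≤ (H : ℝ) ^ ε ∧
      (x3 : ℝ) ≤ (H : ℝ) ^ ε ∧ ((j : ℝ) + 1) * 2 ^ j ≤ (H : ℝ) ^ ε ∧ 6 * (j : ℝ) ≤ (H : ℝ) ^ ε ∧ j + 1 ≤ H ∧
      -2 * Real.log ε ≤ Real.log (Real.log H) ∧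
      (E * Real.log (Real.log H)) ^ (2 * j) * (8 * (j + 2)) ≤ cS * Real.log H ∧ 1 ≤ Real.log (Real.log H) := by
    have hA1 : ∀ᶠ H : ℕ in atTop, (2 / κ + 2) * ((j + 1) * Real.log H ^ (A + 2) + 1) * Real.log H ^ 2 ≤ (H : ℝ) ^ ε := by
      filter_upwards [evt_log_pow (A + 2 + 2 + 1) ε hε, evt_log_ge ((2 / κ + 2) * ((j + 1) + 1)), evt_log_ge 1] with H h1 h2 h3
      refine le_trans ?_ h1
      have h4 : 1 ≤ Real.log (H : ℝ) ^ (A + 2) := one_le_pow₀ h3
      have h5 : 0 < Real.log (H : ℝ) := by linarith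
      calc (2 / κ + 2) * ((j + 1) * Real.log H ^ (A + 2) + 1) * Real.log H ^ 2 ≤
            (2 / κ + 2) * (((j + 1) + 1) * Real.log H ^ (A + 2)) * Real.log H ^ 2 := by
            gcongr
            linarith
        _ = ((2 / κ + 2) * ((j + 1) + 1)) * (Real.log H ^ (A + 2) * Real.log H ^ 2) := by ring
        _ ≤ Real.log H * (Real.log H ^ (A + 2) * Real.log H ^ 2) := mul_le_mul_of_nonneg_right h2 (by positivity)
        _ = _ := by ring
    filter_upwards [evt_log_ge 8, hA1, tpe.eventually_ge_atTop (x3 : ℝ), tpe.eventually_ge_atTop (((j : ℝ) + 1) * 2 ^ j),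
      tpe.eventually_ge_atTop (6 * (j : ℝ)), eventually_ge_atTop (j + 1), tll.eventually_ge_atTop (-2 * Real.log ε),
      hlogs, tll.eventually_ge_atTop 1] with H h1 h2 h3 h4 h5 h6 h7 h8 h9
    exact ⟨h1, h2, h3, h4, h5, h6, h7, h8, h9⟩
  obtain ⟨x8, hx8⟩ := eventually_atTop.1 hev
  refine ⟨max B1 Be, max (max (max x1 x2) (max x4 x5)) (max (max x6 x7) x8), fun H hH => ?_⟩
  have y1 : x1 ≤ H := (le_max_left _ _).trans ((le_max_left _ _).trans ((le_max_left _ _).trans hH))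
  have y2 : x2 ≤ H := (le_max_right _ _).trans ((le_max_left _ _).trans ((le_max_left _ _).trans hH))
  have y4 : x4 ≤ H := (le_max_left _ _).trans ((le_max_right _ _).trans ((le_max_left _ _).trans hH))
  have y5 : x5 ≤ H := (le_max_right _ _).trans ((le_max_right _ _).trans ((le_max_left _ _).trans hH))
  have y6 : x6 ≤ H := (le_max_left _ _).trans ((le_max_left _ _).trans ((le_max_right _ _).trans hH))
  have y7 : x7 ≤ H := (le_max_right _ _).trans ((le_max_left _ _).trans ((le_max_right _ _).trans hH))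
  have y8 : x8 ≤ H := (le_max_right _ _).trans ((le_max_right _ _).trans hH)
  obtain ⟨k1, k2, k3, k4, k5, k6, k7, k8, k9⟩ := hx8 H y8
  obtain ⟨hz3, hSSz⟩ := hSS H y7
  set L := Real.log (H : ℝ) with hL
  set z : ℕ := ⌊L ^ E⌋₊ with hz
  have hL0 : 0 < L := by linarith
  have hL1 : 1 ≤ L := by linarith
  have hHpos : 0 < H := by omega
  have hHR : (0 : ℝ) < H := by exact_mod_cast hHpos
  have hH1 : (1 : ℝ) ≤ H := by exact_mod_cast hHpos
  -- the exceptional sets
  set T1 := (box j H).filter (fun c => (∀ p : ℕ, p.Prime → p ≤ z → rho (pol c) p ≠ p) ∧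
    ∃ K : ℕ, (H : ℝ) ^ ε ≤ K ∧ (K : ℝ) * L ^ B1 ≤ H ∧ SS z (pol c) * la (pol c) K / L ^ A <
      |pa (pol c) K - SS z (pol c) * la (pol c) K|) with hT1
  set T2 := (box j H).filter (fun c => Kv * SS z (pol c) / L < V (fn (pol c)) 1 ⌊(H : ℝ) ^ τ⌋₊) with hT2
  set T3 := (box j H).filter (fun c => ∃ h : ℕ, 1 ≤ h ∧ (h : ℝ) ≤ L ^ Be ∧
      η < ∑ p ∈ (Pm H).filter (fun p => CF (fn (pol c)) h p), (1 : ℝ) / p) with hT3
  set T4 := (box j H).filter (fun c => 1 / (4 * ((g : ℝ) + 1)) < ∑ p ∈ (Icc 1 H).filter (fun p : ℕ => p.Prime ∧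
      Real.exp (√(ε * L)) ≤ p ∧ ∃ h : ℕ, 1 ≤ h ∧ (h : ℝ) ≤ L ^ Be ∧ CF (fn (pol c)) h p),
        (1 : ℝ) / p) with hT4
  set T5 := (box j H).filter (fun c => (((pol c).coeff j : ℤ) : ℝ) * L ^ (A + 2) ≤ H) with hT5
  have c1 : (T1.card : ℝ) ≤ ((box j H).card : ℝ) / L ^ A :=
    hb H y1 _ (fun c _ hc => hc)
  have c2 : (T2.card : ℝ) ≤ ((box j H).card : ℝ) / L ^ A := hV H y2
  have c3 : (T3.card : ℝ) ≤ ((box j H).card : ℝ) / L ^ A := hmed H y4
  have c4 : (T4.card : ℝ) ≤ ((box j H).card : ℝ) / L ^ A := hlar H y5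
  have c5 : (T5.card : ℝ) ≤ ((box j H).card : ℝ) / L ^ A := hsm H y6
  refine ⟨T1 ∪ T2 ∪ T3 ∪ T4 ∪ T5, ?_, ?_⟩
  · have u1 := card_union_le (T1 ∪ T2 ∪ T3 ∪ T4) T5
    have u2 := card_union_le (T1 ∪ T2 ∪ T3) T4
    have u3 := card_union_le (T1 ∪ T2) T3
    have u4 := card_union_le T1 T2
    have u5 : (((T1 ∪ T2 ∪ T3 ∪ T4 ∪ T5).card : ℕ) : ℝ) ≤ T1.card + T2.card + T3.card + T4.card + T5.card := by
      exact_mod_cast (by omega : (T1 ∪ T2 ∪ T3 ∪ T4 ∪ T5).card ≤ T1.card + T2.card + T3.card + T4.card + T5.card)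
    have h6 : ((box j H).card : ℝ) / L ^ A = ((box j H).card : ℝ) / L ^ U / L := by rw [hA, pow_succ, div_div]
    have h7 : 0 ≤ ((box j H).card : ℝ) / L ^ U := by positivity
    have h8 : ((box j H).card : ℝ) / L ^ U / L ≤ ((box j H).card : ℝ) / L ^ U / 8 :=
      div_le_div_of_nonneg_left h7 (by norm_num) k1
    rw [h6] at c1 c2 c3 c4 c5
    linarith
  intro c hc hcB hnf K hK1 hK2
  rw [mem_union, mem_union, mem_union, mem_union, not_or, not_or, not_or, not_or] at hcB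
  obtain ⟨⟨⟨⟨n1, n2⟩, n3⟩, n4⟩, n5⟩ := hcB
  have n1' : ∀ K : ℕ, (H : ℝ) ^ ε ≤ K → (K : ℝ) * L ^ B1 ≤ H → |pa (pol c) K - SS z (pol c) * la (pol c) K| ≤
      SS z (pol c) * la (pol c) K / L ^ A := by
    intro K g1 g2
    by_contra hcon
    exact n1 (mem_filter.2 ⟨hc, fun p hp _ => hnf p hp, K, g1, g2, not_le.1 hcon⟩)
  have n2' : V (fn (pol c)) 1 ⌊(H : ℝ) ^ τ⌋₊ ≤ Kv * SS z (pol c) / L := by
    by_contra hcon
    exact n2 (mem_filter.2 ⟨hc, not_le.1 hcon⟩)
  have n3' : ∀ h : ℕ, 1 ≤ h → (h : ℝ) ≤ L ^ Be →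
      ∑ p ∈ (Pm H).filter (fun p => CF (fn (pol c)) h p), (1 : ℝ) / p ≤ η := by
    intro h g1 g2
    by_contra hcon
    exact n3 (mem_filter.2 ⟨hc, h, g1, g2, not_le.1 hcon⟩)
  have n4' : ∑ p ∈ (Icc 1 H).filter (fun p : ℕ => p.Prime ∧
      Real.exp (√(ε * L)) ≤ p ∧ ∃ h : ℕ, 1 ≤ h ∧ (h : ℝ) ≤ L ^ Be ∧ CF (fn (pol c)) h p),
        (1 : ℝ) / p ≤ 1 / (4 * ((g : ℝ) + 1)) := by
    by_contra hcon
    exact n4 (mem_filter.2 ⟨hc, not_le.1 hcon⟩)
  have n5' : (H : ℝ) < ((c (Fin.last j) : ℤ) : ℝ) * L ^ (A + 2) := by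
    by_contra hcon
    apply n5
    rw [hT5, mem_filter]
    refine ⟨hc, ?_⟩
    have h1 := pol_coeff c (Fin.last j)
    rw [Fin.val_last] at h1
    rw [h1]
    exact not_lt.1 hcon
  set F := pol c with hF
  -- sizes
  have hKpos : (0 : ℝ) < K := lt_of_lt_of_le (Real.rpow_pos_of_pos hHR ε) hK1
  have hLB : ∀ n : ℕ, 1 ≤ L ^ n := fun n => one_le_pow₀ hL1
  have hKH : (K : ℝ) ≤ H := by
    calc (K : ℝ) ≤ K * L ^ (max B1 Be) := le_mul_of_one_le_right hKpos.le (hLB _)
      _ ≤ H := hK2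
  have hKHn : K ≤ H := by exact_mod_cast hKH
  have hKB1 : (K : ℝ) * L ^ B1 ≤ H := by
    refine le_trans ?_ hK2
    apply mul_le_mul_of_nonneg_left _ hKpos.le
    exact pow_le_pow_right₀ hL1 (le_max_left _ _)
  have hcount := n1' K hK1 hKB1
  set N0 : ℕ := ⌊(j + 1) * L ^ (A + 2)⌋₊ with hN0
  have hN0u : (N0 : ℝ) ≤ (j + 1) * L ^ (A + 2) := Nat.floor_le (by positivity)
  have hbig : ∀ n : ℕ, N0 < n → (H : ℤ) < F.eval (n : ℤ) := by
    intro n hn
    apply eval_big hj hc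
    have h1 : (j + 1) * L ^ (A + 2) < n := (Nat.floor_lt (by positivity)).1 hn
    have h2 : (0 : ℝ) < n := lt_of_le_of_lt (by positivity) h1
    have hcl : (0 : ℝ) < ((c (Fin.last j) : ℤ) : ℝ) := by
      by_contra hcon
      have : ((c (Fin.last j) : ℤ) : ℝ) * L ^ (A + 2) ≤ 0 := mul_nonpos_of_nonpos_of_nonneg (not_lt.1 hcon) (by positivity)
      linarith
    have h3 : ((j : ℝ) + 1) * H < n * ((c (Fin.last j) : ℤ) : ℝ) := by
      calc ((j : ℝ) + 1) * H < (j + 1) * (((c (Fin.last j) : ℤ) : ℝ) * L ^ (A + 2)) :=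
            mul_lt_mul_of_pos_left n5' (by positivity)
        _ = ((j + 1) * L ^ (A + 2)) * ((c (Fin.last j) : ℤ) : ℝ) := by ring
        _ ≤ n * ((c (Fin.last j) : ℤ) : ℝ) := mul_le_mul_of_nonneg_right h1.le hcl.le
    exact_mod_cast h3
  -- the count
  have hla : (K : ℝ) / (2 * (j + 2) * L) ≤ la F K := by
    apply la_lower j hj k6 hKHn _ hc
    have : 6 * (j : ℝ) ≤ K := k5.trans hK1
    exact_mod_cast this
  have hla0 : 0 ≤ la F K := le_trans (by positivity) hla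
  have hSS0 : 0 ≤ SS z F := SS_nonneg F z
  have hSSb : 8 * ((j : ℝ) + 2) / L ≤ SS z F := by
    have hs1 := hSSl z hz3 F (pol_natDegree_le c) (fun p hp _ => hnf p hp)
    have hzle : (z:ℝ) ≤ L ^ E := Nat.floor_le (by positivity)
    have hzr : (3:ℝ) ≤ z := by exact_mod_cast hz3
    have hlogz : Real.log z ≤ E * Real.log L := by
      rw [← Real.log_pow]
      exact Real.log_le_log (by linarith) hzle
    have hlogz0 : 0 < Real.log z := Real.log_pos (by linarith)
    refine le_trans ?_ hs1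
    rw [div_le_div_iff₀ hL0 (by positivity)]
    calc 8 * ((j:ℝ) + 2) * Real.log z ^ (2 * j) ≤ 8 * (j + 2) * (E * Real.log L) ^ (2 * j) := by
          gcongr
      _ = (E * Real.log L) ^ (2 * j) * (8 * (j + 2)) := by ring
      _ ≤ cS * L := k8
  have hpa : SS z F * la F K / 2 ≤ pa F K := by
    have h1 := (abs_le.1 hcount).1
    have h2 : SS z F * la F K / L ^ A ≤ SS z F * la F K / 2 := by
      apply div_le_div_of_nonneg_left (by positivity) (by norm_num)
      calc (2 : ℝ) ≤ L := by linarith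
        _ ≤ L ^ A := le_self_pow₀ hL1 (by omega)
    linarith
  have hpapv : pa F K - N0 ≤ (PV F K).card := by
    have h1 : ((Icc 1 K).filter (fun n : ℕ => (F.eval (n : ℤ)).natAbs.Prime)) ⊆ Icc 1 N0 ∪ PV F K := by
      intro n hn
      rw [mem_filter, mem_Icc] at hn
      rw [mem_union]
      by_cases h2 : n ≤ N0
      · left; exact mem_Icc.2 ⟨hn.1.1, h2⟩
      · right
        rw [PV, mem_filter]
        refine ⟨mem_Icc.2 hn.1, ?_⟩
        have h3 := hbig n (not_le.1 h2)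
        have h4 : (F.eval (n : ℤ)).toNat = (F.eval (n : ℤ)).natAbs := by
          have : 0 ≤ F.eval (n : ℤ) := by linarith [Int.natCast_nonneg H]
          omega
        rw [h4]
        exact hn.2
    have h2 := (card_le_card h1).trans (card_union_le _ _)
    rw [Nat.card_Icc, Nat.add_sub_cancel] at h2
    have h3 : pa F K ≤ N0 + (PV F K).card := by
      unfold pa
      exact_mod_cast h2
    linarith
  set PP : ℝ := SS z F * K / (4 * (j + 2) * L) with hPP
  have hPPpa : PP ≤ pa F K := by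
    refine le_trans ?_ hpa
    calc PP = SS z F * (K / (2 * (j + 2) * L)) / 2 := by rw [hPP]; field_simp; ring
      _ ≤ SS z F * la F K / 2 := by
        apply div_le_div_of_nonneg_right _ (by norm_num)
        exact mul_le_mul_of_nonneg_left hla hSS0
  have hPPl : 2 * (K : ℝ) / L ^ 2 ≤ PP := by
    calc 2 * (K : ℝ) / L ^ 2 = (8 * ((j : ℝ) + 2) / L) * K / (4 * (j + 2) * L) := by field_simp; ring
      _ ≤ _ := by
        rw [hPP]
        apply div_le_div_of_nonneg_right _ (by positivity)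
        exact mul_le_mul_of_nonneg_right hSSb hKpos.le
  have hN0K : (2 / κ + 2) * (N0 : ℝ) ≤ K / L ^ 2 := by
    rw [le_div_iff₀ (by positivity)]
    refine le_trans ?_ (k2.trans hK1)
    gcongr
    linarith
  have hN00 : (0 : ℝ) ≤ N0 := Nat.cast_nonneg _
  have hN0' : (N0 : ℝ) ≤ K / L ^ 2 := by
    refine le_trans ?_ hN0K
    have : 0 < 2 / κ := by positivity
    nlinarith
  have hPV2 : PP / 2 ≤ (PV F K).card := by
    have h1 : 2 * (K : ℝ) / L ^ 2 = 2 * (K / L ^ 2) := by ring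
    linarith
  have hPVK : (K : ℝ) / L ^ 2 ≤ (PV F K).card := by
    have h1 : 2 * (K : ℝ) / L ^ 2 = 2 * (K / L ^ 2) := by ring
    linarith
  refine ⟨hPVK, fun S hS => ?_⟩
  apply few hk
  intro Z hZS hZc
  set W : Finset ℕ := Z.filter (fun n => N0 < n) with hW
  have hWc : κ / 2 * (PV F K).card ≤ W.card := by
    have h1 : Z ⊆ W ∪ Icc 1 N0 := by
      intro n hn
      have h2 := (mem_Icc.1 (mem_filter.1 (hS (hZS hn))).1).1
      rw [mem_union]
      by_cases h3 : N0 < n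
      · left; exact mem_filter.2 ⟨hn, h3⟩
      · right; exact mem_Icc.2 ⟨h2, not_lt.1 h3⟩
    have h2 := (card_le_card h1).trans (card_union_le _ _)
    rw [Nat.card_Icc, Nat.add_sub_cancel] at h2
    have h3 : (Z.card : ℝ) ≤ W.card + N0 := by exact_mod_cast h2
    have h4 : (N0 : ℝ) ≤ κ / 2 * (PV F K).card := by
      have h5 : 2 / κ * (N0 : ℝ) ≤ (PV F K).card := by
        refine le_trans ?_ (hN0K.trans hPVK)
        nlinarith
      calc (N0 : ℝ) = κ / 2 * (2 / κ * N0) := by field_simp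
        _ ≤ _ := mul_le_mul_of_nonneg_left h5 (by positivity)
    linarith
  have hlogK : ε * L ≤ Real.log K := by
    have h1 := Real.log_le_log (Real.rpow_pos_of_pos hHR ε) hK1
    rwa [Real.log_rpow hHR] at h1
  have hlogK0 : 0 < Real.log (K : ℝ) := lt_of_lt_of_le (by positivity) hlogK
  have hlogKH : Real.log (K : ℝ) ≤ L := Real.log_le_log hKpos hKH
  obtain ⟨a, d, hd1, hdB, hap⟩ := heng (fn F) N0 K W (sysP ((pol_natDegree_le c).trans (by omega)) hnf)
    (by exact_mod_cast k3.trans hK1) (by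
      intro n hn
      rw [mem_Ioc] at hn
      have h1 := hbig n hn.1
      have h2 : (0 : ℤ) < F.eval (n : ℤ) := by linarith [Int.natCast_nonneg H]
      refine ⟨h2.ne', ?_⟩
      show |F.eval (n : ℤ)| ≤ (K : ℤ) ^ g
      have hn2K : n ≤ 2 * K := by
        have h3 : (N0 : ℝ) ≤ K := by
          refine hN0'.trans (div_le_self hKpos.le (hLB 2))
        have h4 : N0 ≤ K := by exact_mod_cast h3
        omega
      have h3 := Pool.Agent.TH892.eval_abs_le hc (n := n) (K := 2 * K) (by omega) hn2K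
      refine h3.trans ?_
      have h4 : ((j : ℤ) + 1) * 2 ^ j ≤ K := by
        have := k4.trans hK1
        exact_mod_cast this
      have h5 : (H : ℤ) ≤ (K : ℤ) ^ m := by
        have h6 : (H : ℝ) ≤ (K : ℝ) ^ m := by
          calc (H : ℝ) = ((H : ℝ) ^ ε) ^ (1 / ε) := by
                rw [← Real.rpow_mul hHR.le, mul_one_div, div_self hε.ne', Real.rpow_one]
            _ ≤ (K : ℝ) ^ (1 / ε) := Real.rpow_le_rpow (Real.rpow_nonneg hHR.le _) hK1 (by positivity)
            _ ≤ (K : ℝ) ^ (m : ℝ) := by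
                apply Real.rpow_le_rpow_of_exponent_le _ (Nat.le_ceil _)
                have : (1 : ℝ) ≤ (H : ℝ) ^ ε := Real.one_le_rpow hH1 hε.le
                linarith
            _ = (K : ℝ) ^ m := Real.rpow_natCast _ _
        exact_mod_cast h6
      have hK0z : (0 : ℤ) ≤ K := Int.natCast_nonneg K
      have hHz : (0 : ℤ) ≤ H := Int.natCast_nonneg H
      calc ((j : ℤ) + 1) * (H * ((2 * K : ℕ) : ℤ) ^ j) = (((j : ℤ) + 1) * 2 ^ j) * (H * (K : ℤ) ^ j) := by
            push_cast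
            rw [mul_pow]
            ring
        _ ≤ K * ((K : ℤ) ^ m * (K : ℤ) ^ j) := by
            apply mul_le_mul h4 _ (by positivity) hK0z
            exact mul_le_mul_of_nonneg_right h5 (by positivity)
        _ = (K : ℤ) ^ g := by rw [hg, pow_add, pow_add, pow_one]; ring)
    (by
      intro h hh1 hh2
      refine le_trans ?_ (n3' h hh1 (hh2.trans (pow_le_pow_left₀ hlogK0.le hlogKH _)))
      refine sum_le_sum_of_subset_of_nonneg ?_ fun _ _ _ => by positivity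
      intro p hp
      rw [mem_filter] at hp ⊢
      obtain ⟨hp1, hpp, hp2, hp3, hp4⟩ := hp
      refine ⟨mem_Pm.2 ⟨hpp, ?_, ?_⟩, hp4⟩
      · refine lt_of_le_of_lt ?_ hp2
        have h5 : Real.log (ε * L) ≤ Real.log (Real.log K) := Real.log_le_log (by positivity) hlogK
        rw [Real.log_mul hε.ne' hL0.ne'] at h5
        linarith
      · exact hp3.le.trans (Real.exp_le_exp.2 (Real.sqrt_le_sqrt hlogKH)))
    (by
      refine le_trans ?_ n4'
      refine sum_le_sum_of_subset_of_nonneg ?_ fun _ _ _ => by positivity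
      intro p hp
      rw [mem_filter, mem_Icc] at hp ⊢
      obtain ⟨⟨hp1, hp1'⟩, hpp, hp2, h, hh1, hh2, hh3⟩ := hp
      refine ⟨⟨hp1, hp1'.trans hKHn⟩, hpp, ?_, h, hh1, hh2.trans (pow_le_pow_left₀ hlogK0.le hlogKH _), hh3⟩
      exact (Real.exp_le_exp.2 (Real.sqrt_le_sqrt hlogK)).trans hp2)
    (by
      intro n hn
      rw [hW, mem_filter] at hn
      have h2 := (mem_Icc.1 (mem_filter.1 (hS (hZS hn.1))).1).2
      rw [mem_Ioc]
      exact ⟨hn.2, by omega⟩)
    (by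
      intro n hn p hpp hpH hdv
      rw [hW, mem_filter] at hn
      have h2 := (mem_filter.1 (hS (hZS hn.1))).2
      have h3 := hbig n hn.2
      unfold fn at hdv
      have h4 : 0 ≤ F.eval (n : ℤ) := by linarith [Int.natCast_nonneg H]
      rw [← Int.toNat_of_nonneg h4] at hdv h3
      have h5 : p ∣ (F.eval (n : ℤ)).toNat := Int.natCast_dvd_natCast.1 hdv
      have h6 : p = (F.eval (n : ℤ)).toNat := (Nat.prime_dvd_prime_iff_eq hpp h2).1 h5
      rw [← h6] at h3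
      have h7 : H < p := by exact_mod_cast h3
      have h8 : (K : ℝ) ^ (1 / 2 : ℝ) ≤ K := by
        have hK1' : (1 : ℝ) ≤ K := (Real.one_le_rpow hH1 hε.le).trans hK1
        calc (K : ℝ) ^ (1 / 2 : ℝ) ≤ (K : ℝ) ^ (1 : ℝ) := Real.rpow_le_rpow_of_exponent_le hK1' (by norm_num)
          _ = K := Real.rpow_one _
      have h9 : (H : ℝ) < p := by exact_mod_cast h7
      linarith)
    (by
      have h1 : V (fn F) 1 K ≤ Kv * SS z F / L := by
        refine (V_mono F ?_).trans n2'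
        have h2 : (⌊(H : ℝ) ^ τ⌋₊ : ℝ) ≤ K := by
          refine (Nat.floor_le (by positivity)).trans (le_trans ?_ hK1)
          exact Real.rpow_le_rpow_of_exponent_le hH1 hτε
        exact_mod_cast h2
      calc κ / (16 * (j + 2) * Kv) * (K * V (fn F) 1 K) ≤ κ / (16 * (j + 2) * Kv) * (K * (Kv * SS z F / L)) := by
            apply mul_le_mul_of_nonneg_left _ (by positivity)
            exact mul_le_mul_of_nonneg_left h1 hKpos.le
        _ = κ / 2 * (PP / 2) := by rw [hPP]; field_simp; ring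
        _ ≤ κ / 2 * (PV F K).card := mul_le_mul_of_nonneg_left hPV2 (by positivity)
        _ ≤ W.card := hWc)
  refine ⟨a, d, hd1, ?_, fun i hi => (mem_filter.1 (hap i hi)).1⟩
  calc (d : ℝ) ≤ Real.log K ^ Be := hdB
    _ ≤ L ^ Be := pow_le_pow_left₀ hlogK0.le hlogKH _
    _ ≤ L ^ max B1 Be := pow_le_pow_right₀ hL1 (le_max_right _ _)

end Pool.Agent.U497.SP
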