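import Pool.Agent.TH892.FullBox4
import Pool.Agent.U497.SP.Poly
import Pool.Agent.U497.SP.Mom
import Pool.Agent.U497.SP.Var

/-!
# The box of all polynomials of degree `j` and height at most `H` (helper497)
-/

set_option autoImplicit false

namespace Pool.Agent.U497.SP

open Finset Polynomial Filter Topology

open Pool.Agent.Y677.RSZ (rt V)
open Pool.Agent.K3h89.SZ (SysP CF)
open Pool.Agent.K3h89.SZ.EXC (sum_dvd sum_sq)
open Pool.Agent.H300R2.BH (rho SS FF)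
open Pool.Agent.H300R2.FB (FP Rr bx)
open Pool.Agent.TH892 (pol box sum_box card_box)

/-- the polynomial without the variable part of the constant term -/
noncomputable def GP (j H : ℕ) (r : Fin (j - 1) → ℤ) (d : ℕ) : ℤ[X] :=
  C (-(H : ℤ) - 1) + 0 + Rr j r + C (1 * (d : ℤ)) * X ^ j

lemma FP_eq (j H : ℕ) (r : Fin (j - 1) → ℤ) (a d : ℕ) : FP j H r a d = C (a : ℤ) + GP j H r d := by
  unfold FP FF GP
  ring

lemma GP_coeff {j : ℕ} (hj : 1 ≤ j) (H : ℕ) (r : Fin (j - 1) → ℤ) (d : ℕ) : (GP j H r d).coeff j = d := by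
  unfold GP Rr
  rw [add_zero, coeff_add, coeff_add, coeff_C, if_neg (by omega), zero_add, coeff_C_mul, coeff_X_pow, if_pos rfl,
    finsetSum_coeff, sum_eq_zero]
  · ring
  · intro i _
    rw [coeff_C_mul, coeff_X_pow, if_neg, mul_zero]
    have := i.2
    omega

lemma GP_natDegree {j : ℕ} (hj : 1 ≤ j) (H : ℕ) (r : Fin (j - 1) → ℤ) (d : ℕ) : (GP j H r d).natDegree ≤ j := by
  unfold GP Rr
  rw [add_zero]
  refine (natDegree_add_le _ _).trans (max_le ((natDegree_add_le _ _).trans (max_le ?_ ?_)) ?_)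
  · rw [natDegree_C]; exact Nat.zero_le _
  · refine natDegree_sum_le_of_forall_le _ _ fun i _ => ?_
    refine (natDegree_C_mul_X_pow_le _ _).trans ?_
    have := i.2
    omega
  · exact natDegree_C_mul_X_pow_le _ _

open Classical in
/-- counting in the box -/
lemma box_count {j : ℕ} (hj : 1 ≤ j) (H : ℕ) (Pa : ℤ[X] → Prop) (Pd : ℕ → Prop) (T : ℝ) (hT : 0 ≤ T)
    (h : ∀ r ∈ bx j (fun _ => H), ∀ d ∈ Ioc 0 H, ¬ Pd d →
      (((Icc 1 (2 * H + 1)).filter (fun a : ℕ => Pa (C (a : ℤ) + GP j H r d))).card : ℝ) ≤ T) :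
    (((box j H).filter (fun c => Pa (pol c))).card : ℝ) ≤
      ((bx j (fun _ => H)).card : ℝ) * (((2 * H + 1 : ℕ) : ℝ) * ((Ioc 0 H).filter Pd).card + H * T) := by
  have h1 := sum_box hj H (fun F _ => if Pa F then (1 : ℝ) else 0)
  have h2 : (((box j H).filter (fun c => Pa (pol c))).card : ℝ) =
      ∑ c ∈ box j H, if Pa (pol c) then (1 : ℝ) else 0 := by
    rw [card_filter]
    push_cast
    rfl
  rw [h2, h1]
  have h3 : ∀ r ∈ bx j (fun _ => H), ∑ a ∈ Ioc 0 (0 + (2 * H + 1)), ∑ d ∈ Ioc 0 H,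
      (if Pa (FP j H r a d) then (1 : ℝ) else 0) ≤ ((2 * H + 1 : ℕ) : ℝ) * ((Ioc 0 H).filter Pd).card + H * T := by
    intro r hr
    rw [sum_comm]
    have h4 : ∀ d ∈ Ioc 0 H, ∑ a ∈ Ioc 0 (0 + (2 * H + 1)), (if Pa (FP j H r a d) then (1 : ℝ) else 0) ≤
        (if Pd d then ((2 * H + 1 : ℕ) : ℝ) else 0) + T := by
      intro d hd
      have h5 : ∑ a ∈ Ioc 0 (0 + (2 * H + 1)), (if Pa (FP j H r a d) then (1 : ℝ) else 0) =
          (((Icc 1 (2 * H + 1)).filter (fun a : ℕ => Pa (C (a : ℤ) + GP j H r d))).card : ℝ) := by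
        rw [card_filter]
        push_cast
        rw [zero_add]
        refine sum_congr rfl fun a _ => ?_
        rw [FP_eq]
      rw [h5]
      by_cases hp : Pd d
      · rw [if_pos hp]
        have h6 : (((Icc 1 (2 * H + 1)).filter (fun a : ℕ => Pa (C (a : ℤ) + GP j H r d))).card : ℝ) ≤
            ((2 * H + 1 : ℕ) : ℝ) := by
          have := card_filter_le (Icc 1 (2 * H + 1)) (fun a : ℕ => Pa (C (a : ℤ) + GP j H r d))
          rw [Nat.card_Icc, Nat.add_sub_cancel] at this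
          exact_mod_cast this
        linarith
      · rw [if_neg hp, zero_add]
        exact h r hr d hd hp
    refine (sum_le_sum h4).trans (le_of_eq ?_)
    rw [sum_add_distrib, ← sum_filter, sum_const, sum_const, Nat.card_Ioc, Nat.sub_zero, nsmul_eq_mul, nsmul_eq_mul]
    ring
  refine (sum_le_sum h3).trans (le_of_eq ?_)
  rw [sum_const, nsmul_eq_mul]

/-- the primes of medium size -/
noncomputable def Pm (X : ℝ) : Finset ℕ :=
  (Icc 1 ⌊Real.exp (√(Real.log X))⌋₊).filter (fun p : ℕ => p.Prime ∧ Real.log (Real.log X) / 2 < p)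

lemma mem_Pm {X : ℝ} {p : ℕ} : p ∈ Pm X ↔ p.Prime ∧ Real.log (Real.log X) / 2 < p ∧ (p : ℝ) ≤ Real.exp (√(Real.log X)) := by
  unfold Pm
  rw [mem_filter, mem_Icc]
  constructor
  · rintro ⟨⟨h1, h2⟩, h3, h4⟩
    exact ⟨h3, h4, (Nat.le_floor_iff (Real.exp_pos _).le).1 h2⟩
  · rintro ⟨h1, h2, h3⟩
    exact ⟨⟨h1.one_lt.le, Nat.le_floor h3⟩, h1, h2⟩

open Classical in
/-- the exceptional leading coefficients -/
def Pd (A : ℕ) (η X : ℝ) (d : ℕ) : Prop :=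
  (d : ℝ) * Real.log X ^ (A + 1) ≤ X ∨ η / 4 < ∑ p ∈ (Pm X).filter (fun p => p ∣ d), (1 : ℝ) / p

open Classical in
lemma Pd_count (A : ℕ) (η : ℝ) (hη : 0 < η) : ∃ H₀ : ℕ, ∀ H : ℕ, H₀ ≤ H →
    (((Ioc 0 H).filter (Pd A η (H : ℝ))).card : ℝ) ≤ H / Real.log H ^ A := by
  obtain ⟨X₀, h⟩ := tail 1 (A + 1) (η / 4) (by positivity)
  have tc : Tendsto (fun H : ℕ => (H : ℝ)) atTop atTop := tendsto_natCast_atTop_atTop
  have tl : Tendsto (fun H : ℕ => Real.log (H : ℝ)) atTop atTop := Real.tendsto_log_atTop.comp tc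
  obtain ⟨H₀, hH₀⟩ := eventually_atTop.1 ((tc.eventually_ge_atTop X₀).and ((tl.eventually_ge_atTop 2).and
    (tc.eventually_ge_atTop 1)))
  refine ⟨H₀, fun H hH => ?_⟩
  obtain ⟨h1, h2, h3⟩ := hH₀ H hH
  set L := Real.log (H : ℝ) with hL
  have hL0 : 0 < L := by linarith
  have hsq : √(H : ℝ) ≤ H := by
    rw [Real.sqrt_le_left (by linarith)]
    nlinarith
  have h4 := h H h1 H hsq (Pm H) (fun _ => {0}) (fun p hp => mem_Pm.1 hp) (fun p => by simp)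
  have hsub : (Ioc 0 H).filter (Pd A η (H : ℝ)) ⊆ Icc 1 ⌊(H : ℝ) / L ^ (A + 1)⌋₊ ∪
      (Icc 1 H).filter (fun n => η / 4 < ∑ p ∈ (Pm H).filter (fun p => n % p ∈ ({0} : Finset ℕ)), 1 / (p : ℝ)) := by
    intro d hd
    rw [mem_filter, mem_Ioc] at hd
    obtain ⟨⟨hd1, hd2⟩, hd3⟩ := hd
    rw [mem_union]
    rcases hd3 with h5 | h5
    · left
      rw [mem_Icc]
      refine ⟨hd1, Nat.le_floor ?_⟩
      rw [le_div_iff₀ (by positivity)]
      exact h5
    · right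
      rw [mem_filter, mem_Icc]
      refine ⟨⟨hd1, hd2⟩, h5.trans_le (le_of_eq ?_)⟩
      apply sum_congr _ fun _ _ => rfl
      apply filter_congr
      intro p _
      rw [mem_singleton, Nat.dvd_iff_mod_eq_zero]
  have h5 : (((Ioc 0 H).filter (Pd A η (H : ℝ))).card : ℝ) ≤ H / L ^ (A + 1) + H / L ^ (A + 1) := by
    have h6 := (card_le_card hsub).trans (card_union_le _ _)
    rw [Nat.card_Icc, Nat.add_sub_cancel] at h6
    have h7 : ((⌊(H : ℝ) / L ^ (A + 1)⌋₊ : ℕ) : ℝ) ≤ H / L ^ (A + 1) := Nat.floor_le (by positivity)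
    have h8 : (((Ioc 0 H).filter (Pd A η (H : ℝ))).card : ℝ) ≤ ((⌊(H : ℝ) / L ^ (A + 1)⌋₊ : ℕ) : ℝ) +
        (((Icc 1 H).filter (fun n => η / 4 < ∑ p ∈ (Pm H).filter (fun p => n % p ∈ ({0} : Finset ℕ)),
          1 / (p : ℝ))).card : ℝ) := by
      exact_mod_cast h6
    linarith
  refine h5.trans ?_
  have h6 : (H : ℝ) / L ^ (A + 1) = H / L ^ A / L := by rw [pow_succ, div_div]
  rw [h6]
  have h7 : 0 ≤ (H : ℝ) / L ^ A := by positivity
  have h8 : (H : ℝ) / L ^ A / L ≤ H / L ^ A / 2 := div_le_div_of_nonneg_left h7 (by norm_num) h2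
  linarith

open Classical in
/-- from the two counts to the box -/
lemma box_count2 {j : ℕ} (hj : 1 ≤ j) (H A : ℕ) (Pa : ℤ[X] → Prop) (Pd : ℕ → Prop) (hH : 2 ≤ Real.log (H : ℝ))
    (hd : (((Ioc 0 H).filter Pd).card : ℝ) ≤ H / Real.log H ^ (A + 1))
    (h : ∀ r ∈ bx j (fun _ => H), ∀ d ∈ Ioc 0 H, ¬ Pd d →
      (((Icc 1 (2 * H + 1)).filter (fun a : ℕ => Pa (C (a : ℤ) + GP j H r d))).card : ℝ) ≤
        ((2 * H + 1 : ℕ) : ℝ) / Real.log H ^ (A + 1)) :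
    (((box j H).filter (fun c => Pa (pol c))).card : ℝ) ≤ ((box j H).card : ℝ) / Real.log H ^ A := by
  have hL0 : 0 < Real.log (H : ℝ) := by linarith
  refine (box_count hj H Pa Pd _ (by positivity) h).trans ?_
  rw [card_box hj H]
  set L := Real.log (H : ℝ) with hL
  have h1 : ((2 * H + 1 : ℕ) : ℝ) * ((Ioc 0 H).filter Pd).card ≤ ((2 * H + 1 : ℕ) : ℝ) * (H / L ^ (A + 1)) :=
    mul_le_mul_of_nonneg_left hd (Nat.cast_nonneg _)
  have h2 : ((2 * H + 1 : ℕ) : ℝ) * ((Ioc 0 H).filter Pd).card + H * (((2 * H + 1 : ℕ) : ℝ) / L ^ (A + 1)) ≤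
      ((2 * H + 1 : ℕ) : ℝ) * H / L ^ A := by
    have h3 : H * (((2 * H + 1 : ℕ) : ℝ) / L ^ (A + 1)) = ((2 * H + 1 : ℕ) : ℝ) * H / L ^ A / L := by
      rw [pow_succ]; field_simp
    have h4 : ((2 * H + 1 : ℕ) : ℝ) * (H / L ^ (A + 1)) = ((2 * H + 1 : ℕ) : ℝ) * H / L ^ A / L := by
      rw [pow_succ]; field_simp
    have h5 : 0 ≤ ((2 * H + 1 : ℕ) : ℝ) * H / L ^ A := by positivity
    have h6 : ((2 * H + 1 : ℕ) : ℝ) * H / L ^ A / L ≤ ((2 * H + 1 : ℕ) : ℝ) * H / L ^ A / 2 :=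
      div_le_div_of_nonneg_left h5 (by norm_num) hH
    rw [h3]
    linarith
  calc ((bx j (fun _ => H)).card : ℝ) * (((2 * H + 1 : ℕ) : ℝ) * ((Ioc 0 H).filter Pd).card +
        H * (((2 * H + 1 : ℕ) : ℝ) / L ^ (A + 1))) ≤
      ((bx j (fun _ => H)).card : ℝ) * (((2 * H + 1 : ℕ) : ℝ) * H / L ^ A) :=
        mul_le_mul_of_nonneg_left h2 (Nat.cast_nonneg _)
    _ = _ := by ring

end Pool.Agent.U497.SP
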